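import Mathlib

set_option autoImplicit false

/-!
# Counting antichains in the product of two posets with given chain colourings
-/

namespace Pool.Agent.Helper68

open Finset

section

variable {P Q : Type*} [Fintype P] [Fintype Q] [PartialOrder P] [PartialOrder Q]

open Classical in
lemma proj_count (c : P → ℕ) (d : Q → ℕ)
    (hc : ∀ x y, c x = c y → x ≤ y ∨ y ≤ x) (hd : ∀ x y, d x = d y → x ≤ y ∨ y ≤ x)
    (S : Finset (P × Q)) (hS : IsAntichain (· ≤ ·) (S : Set (P × Q))) (x : P) (y : Q)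
    (hxy : (x, y) ∈ S) :
    (univ.filter (fun x' => c x' = c x ∧ (∃ y', (x', y') ∈ S ∧ d y' = d y) ∧ x' < x)).card =
    (univ.filter (fun y' => d y' = d y ∧ (∃ x', (x', y') ∈ S ∧ c x' = c x) ∧ y < y')).card := by
  set F := S.filter (fun p => c p.1 = c x ∧ d p.2 = d y ∧ p.1 < x) with hF
  have key : ∀ p ∈ S, c p.1 = c x → d p.2 = d y → (p.1 < x ↔ y < p.2) := by
    intro p hp hpc hpd
    constructor
    · intro hlt
      have hne : p ≠ (x, y) := by
        rintro rfl
        exact lt_irrefl _ hlt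
      rcases hd p.2 y hpd with h | h
      · exact absurd (Prod.mk_le_mk.mpr ⟨hlt.le, h⟩ : (p.1, p.2) ≤ (x, y)) (hS hp hxy hne)
      · rcases h.lt_or_eq with h' | h'
        · exact h'
        · exact absurd (Prod.mk_le_mk.mpr ⟨hlt.le, h'.symm.le⟩ : (p.1, p.2) ≤ (x, y)) (hS hp hxy hne)
    · intro hlt
      have hne : (x, y) ≠ p := by
        rintro rfl
        exact lt_irrefl _ hlt
      rcases hc p.1 x hpc with h | h
      · rcases h.lt_or_eq with h' | h'
        · exact h'
        · exact absurd (Prod.mk_le_mk.mpr ⟨h'.symm.le, hlt.le⟩ : (x, y) ≤ (p.1, p.2)) (hS hxy hp hne)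
      · exact absurd (Prod.mk_le_mk.mpr ⟨h, hlt.le⟩ : (x, y) ≤ (p.1, p.2)) (hS hxy hp hne)
  have h1 : F.image Prod.fst =
      univ.filter (fun x' => c x' = c x ∧ (∃ y', (x', y') ∈ S ∧ d y' = d y) ∧ x' < x) := by
    ext x'
    simp only [hF, mem_image, mem_filter, mem_univ, true_and]
    constructor
    · rintro ⟨p, ⟨hp, h2, h3, h4⟩, rfl⟩
      exact ⟨h2, ⟨p.2, hp, h3⟩, h4⟩
    · rintro ⟨h2, ⟨y', hp, h3⟩, h4⟩
      exact ⟨(x', y'), ⟨hp, h2, h3, h4⟩, rfl⟩
  have h2 : F.image Prod.snd =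
      univ.filter (fun y' => d y' = d y ∧ (∃ x', (x', y') ∈ S ∧ c x' = c x) ∧ y < y') := by
    ext y'
    simp only [hF, mem_image, mem_filter, mem_univ, true_and]
    constructor
    · rintro ⟨p, ⟨hp, h2, h3, h4⟩, rfl⟩
      exact ⟨h3, ⟨p.1, hp, h2⟩, (key p hp h2 h3).mp h4⟩
    · rintro ⟨h2, ⟨x', hp, h3⟩, h4⟩
      exact ⟨(x', y'), ⟨hp, h3, h2, (key (x', y') hp h3 h2).mpr h4⟩, rfl⟩
  have i1 : Set.InjOn Prod.fst (F : Set (P × Q)) := by
    intro p hp q hq hpq
    simp only [hF, coe_filter, Set.mem_setOf_eq] at hp hq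
    rcases hd p.2 q.2 (hp.2.2.1.trans hq.2.2.1.symm) with h | h
    · exact hS.eq hp.1 hq.1 (Prod.mk_le_mk.mpr ⟨hpq.le, h⟩ : (p.1, p.2) ≤ (q.1, q.2))
    · exact (hS.eq hq.1 hp.1 (Prod.mk_le_mk.mpr ⟨hpq.symm.le, h⟩ : (q.1, q.2) ≤ (p.1, p.2))).symm
  have i2 : Set.InjOn Prod.snd (F : Set (P × Q)) := by
    intro p hp q hq hpq
    simp only [hF, coe_filter, Set.mem_setOf_eq] at hp hq
    rcases hc p.1 q.1 (hp.2.1.trans hq.2.1.symm) with h | h
    · exact hS.eq hp.1 hq.1 (Prod.mk_le_mk.mpr ⟨h, hpq.le⟩ : (p.1, p.2) ≤ (q.1, q.2))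
    · exact (hS.eq hq.1 hp.1 (Prod.mk_le_mk.mpr ⟨h, hpq.symm.le⟩ : (q.1, q.2) ≤ (p.1, p.2))).symm
  rw [← h1, ← h2, card_image_of_injOn i1, card_image_of_injOn i2]

/-- The number of antichains of `P × Q` is at most `2 ^ (|P| w2 + |Q| w1)` when `P` is coloured by
`w1` and `Q` by `w2` chains. -/
theorem card_antichains_prod_le (w1 w2 : ℕ) (c : P → ℕ) (d : Q → ℕ)
    (hc1 : ∀ x, c x < w1) (hc : ∀ x y, c x = c y → x ≤ y ∨ y ≤ x)
    (hd1 : ∀ x, d x < w2) (hd : ∀ x y, d x = d y → x ≤ y ∨ y ≤ x) :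
    Nat.card {S : Finset (P × Q) // IsAntichain (· ≤ ·) (S : Set (P × Q))} ≤
      2 ^ (Fintype.card P * w2 + Fintype.card Q * w1) := by
  classical
  let φ : {S : Finset (P × Q) // IsAntichain (· ≤ ·) (S : Set (P × Q))} →
      Finset (P × Fin w2) × Finset (Q × Fin w1) := fun S =>
    (univ.filter (fun p : P × Fin w2 => ∃ y, (p.1, y) ∈ S.1 ∧ d y = p.2.1),
     univ.filter (fun p : Q × Fin w1 => ∃ x, (x, p.1) ∈ S.1 ∧ c x = p.2.1))
  have hφ : Function.Injective φ := by
    have main : ∀ S T : {S : Finset (P × Q) // IsAntichain (· ≤ ·) (S : Set (P × Q))}, φ S = φ T →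
        S.1 ⊆ T.1 := by
      intro S T hST p hp
      obtain ⟨x, y⟩ := p
      have e1 : ∀ (x' : P) (j : ℕ), j < w2 → ((∃ y', (x', y') ∈ S.1 ∧ d y' = j) ↔
          (∃ y', (x', y') ∈ T.1 ∧ d y' = j)) := by
        intro x' j hj
        have h := congrArg Prod.fst hST
        have h' := Finset.ext_iff.mp h (x', ⟨j, hj⟩)
        simpa [φ] using h'
      have e2 : ∀ (y' : Q) (i : ℕ), i < w1 → ((∃ x', (x', y') ∈ S.1 ∧ c x' = i) ↔
          (∃ x', (x', y') ∈ T.1 ∧ c x' = i)) := by
        intro y' i hi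
        have h := congrArg Prod.snd hST
        have h' := Finset.ext_iff.mp h (y', ⟨i, hi⟩)
        simpa [φ] using h'
      obtain ⟨y', hy', hdy⟩ := (e1 x (d y) (hd1 y)).mp ⟨y, hp, rfl⟩
      have k1 := proj_count c d hc hd S.1 S.2 x y hp
      have k2 := proj_count c d hc hd T.1 T.2 x y' hy'
      simp only [hdy] at k2
      have l1 : (univ.filter (fun x' => c x' = c x ∧ (∃ y', (x', y') ∈ S.1 ∧ d y' = d y) ∧ x' < x)) =
          (univ.filter (fun x' => c x' = c x ∧ (∃ y', (x', y') ∈ T.1 ∧ d y' = d y) ∧ x' < x)) := by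
        apply Finset.filter_congr
        intro x' _
        rw [e1 x' (d y) (hd1 y)]
      have l2 : (univ.filter (fun y' => d y' = d y ∧ (∃ x', (x', y') ∈ S.1 ∧ c x' = c x) ∧ y < y')) =
          (univ.filter (fun y' => d y' = d y ∧ (∃ x', (x', y') ∈ T.1 ∧ c x' = c x) ∧ y < y')) := by
        apply Finset.filter_congr
        intro y' _
        rw [e2 y' (c x) (hc1 x)]
      rw [l1, k2, l2] at k1
      -- now compare y and y'
      have hyT : ∃ x', (x', y) ∈ T.1 ∧ c x' = c x := (e2 y (c x) (hc1 x)).mp ⟨x, hp, rfl⟩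
      rcases hd y y' hdy.symm with h | h
      · rcases h.lt_or_eq with h' | h'
        · exfalso
          have hss : (univ.filter (fun y'' => d y'' = d y ∧ (∃ x', (x', y'') ∈ T.1 ∧ c x' = c x) ∧ y' < y'')) ⊂
              (univ.filter (fun y'' => d y'' = d y ∧ (∃ x', (x', y'') ∈ T.1 ∧ c x' = c x) ∧ y < y'')) := by
            rw [Finset.ssubset_iff_of_subset (by
              intro z hz
              simp only [mem_filter, mem_univ, true_and] at hz ⊢
              exact ⟨hz.1, hz.2.1, h'.trans hz.2.2⟩)]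
            refine ⟨y', ?_, ?_⟩
            · simp only [mem_filter, mem_univ, true_and]
              exact ⟨hdy, ⟨x, hy', rfl⟩, h'⟩
            · simp
          have := Finset.card_lt_card hss
          omega
        · rw [h']; exact hy'
      · rcases h.lt_or_eq with h' | h'
        · exfalso
          have hss : (univ.filter (fun y'' => d y'' = d y ∧ (∃ x', (x', y'') ∈ T.1 ∧ c x' = c x) ∧ y < y'')) ⊂
              (univ.filter (fun y'' => d y'' = d y ∧ (∃ x', (x', y'') ∈ T.1 ∧ c x' = c x) ∧ y' < y'')) := by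
            rw [Finset.ssubset_iff_of_subset (by
              intro z hz
              simp only [mem_filter, mem_univ, true_and] at hz ⊢
              exact ⟨hz.1, hz.2.1, h'.trans hz.2.2⟩)]
            refine ⟨y, ?_, ?_⟩
            · simp only [mem_filter, mem_univ, true_and]
              exact ⟨hyT, h'⟩
            · simp
          have := Finset.card_lt_card hss
          omega
        · rw [← h']; exact hy'
    intro S T hST
    exact Subtype.ext (Finset.Subset.antisymm (main S T hST) (main T S hST.symm))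
  have h1 := Nat.card_le_card_of_injective φ hφ
  have h2 : Nat.card (Finset (P × Fin w2) × Finset (Q × Fin w1)) =
      2 ^ (Fintype.card P * w2 + Fintype.card Q * w1) := by
    rw [Nat.card_prod, Nat.card_eq_fintype_card, Nat.card_eq_fintype_card, Fintype.card_finset,
      Fintype.card_finset, Fintype.card_prod, Fintype.card_prod, Fintype.card_fin, Fintype.card_fin,
      pow_add]
  rw [h2] at h1
  exact h1

end

end Pool.Agent.Helper68
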