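import Mathlib

set_option autoImplicit false

/-!
# Dilworth's theorem for finite subsets of a partial order

Galvin's inductive proof.
-/

namespace Pool.Agent.Helper68

open Finset

variable {α : Type*} [PartialOrder α]

/-- Dilworth's theorem: if all antichains in the finite set `s` have at most `k` elements then `s` can be
coloured with `k` colours such that elements of the same colour are comparable. -/
theorem dilworth [DecidableEq α] : ∀ (n : ℕ) (s : Finset α) (k : ℕ), s.card = n →
    (∀ t : Finset α, t ⊆ s → IsAntichain (· ≤ ·) (t : Set α) → t.card ≤ k) →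
    ∃ c : α → ℕ, (∀ x ∈ s, c x < k) ∧ ∀ x ∈ s, ∀ y ∈ s, c x = c y → x ≤ y ∨ y ≤ x := by
  classical
  intro n
  induction n using Nat.strong_induction_on with
  | _ n ih =>
  intro s k hsn hk
  rcases s.eq_empty_or_nonempty with rfl | hne
  · exact ⟨fun _ => 0, by simp, by simp⟩
  obtain ⟨a, ha⟩ := s.exists_maximal hne
  have has : a ∈ s := ha.1
  have hamax : ∀ x ∈ s, a ≤ x → x = a := fun x hx hax => le_antisymm (ha.2 hx hax) hax
  set s' := s.erase a with hs'
  have hs'card : s'.card < n := by rw [hs', ← hsn]; exact Finset.card_erase_lt_of_mem has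
  have hs's : s' ⊆ s := Finset.erase_subset _ _
  -- the maximal size of an antichain of s'
  obtain ⟨t0, ht0, ht0max⟩ := (s'.powerset.filter
    (fun t : Finset α => IsAntichain (· ≤ ·) (t : Set α))).exists_max_image
    (fun t => t.card) ⟨∅, by simp⟩
  rw [Finset.mem_filter, Finset.mem_powerset] at ht0
  set k' := t0.card with hk'
  have hk'max : ∀ t : Finset α, t ⊆ s' → IsAntichain (· ≤ ·) (t : Set α) → t.card ≤ k' := by
    intro t ht hta
    exact ht0max t (by rw [Finset.mem_filter, Finset.mem_powerset]; exact ⟨ht, hta⟩)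
  obtain ⟨c, hc1, hc2⟩ := ih s'.card hs'card s' k' rfl hk'max
  -- every k'-antichain of s' meets every colour
  have hmeet : ∀ t : Finset α, t ⊆ s' → IsAntichain (· ≤ ·) (t : Set α) → t.card = k' →
      ∀ i < k', ∃ z ∈ t, c z = i := by
    intro t ht hta htc i hi
    have hinj : Set.InjOn c (t : Set α) := by
      intro x hx y hy hxy
      rcases hc2 x (ht hx) y (ht hy) hxy with h | h
      · exact hta.eq hx hy h
      · exact (hta.eq hy hx h).symm
    have himg : t.image c = Finset.range k' := by
      apply Finset.eq_of_subset_of_card_le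
      · intro j hj
        obtain ⟨x, hx, rfl⟩ := Finset.mem_image.mp hj
        exact Finset.mem_range.mpr (hc1 x (ht hx))
      · rw [Finset.card_image_of_injOn hinj, htc, Finset.card_range]
    have : i ∈ t.image c := by rw [himg]; exact Finset.mem_range.mpr hi
    obtain ⟨z, hz, hzi⟩ := Finset.mem_image.mp this
    exact ⟨z, hz, hzi⟩
  -- M i: elements of colour i in some k'-antichain
  let M : ℕ → Finset α := fun i => s'.filter (fun z => c z = i ∧
    ∃ t : Finset α, t ⊆ s' ∧ IsAntichain (· ≤ ·) (t : Set α) ∧ t.card = k' ∧ z ∈ t)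
  have hMne : ∀ i < k', (M i).Nonempty := by
    intro i hi
    obtain ⟨z, hz, hzi⟩ := hmeet t0 ht0.1 ht0.2 rfl i hi
    exact ⟨z, Finset.mem_filter.mpr ⟨ht0.1 hz, hzi, t0, ht0.1, ht0.2, rfl, hz⟩⟩
  have hMtop : ∀ i, ∃ x : α, i < k' → (x ∈ M i ∧ ∀ z ∈ M i, z ≤ x) := by
    intro i
    by_cases hi : i < k'
    · obtain ⟨x, hx⟩ := (M i).exists_maximal (hMne i hi)
      refine ⟨x, fun _ => ⟨hx.1, fun z hz => ?_⟩⟩
      have h1 := Finset.mem_filter.mp hz
      have h2 := Finset.mem_filter.mp hx.1
      rcases hc2 z h1.1 x h2.1 (h1.2.1.trans h2.2.1.symm) with h | h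
      · exact h
      · exact hx.2 hz h
    · exact ⟨a, fun h => absurd h hi⟩
  choose x hx using hMtop
  have hxs' : ∀ i < k', x i ∈ s' := fun i hi => (Finset.mem_filter.mp (hx i hi).1).1
  have hxc : ∀ i < k', c (x i) = i := fun i hi => (Finset.mem_filter.mp (hx i hi).1).2.1
  have hxanti : ∀ i < k', ∀ j < k', x j ≤ x i → i = j := by
    intro i hi j hj hji
    obtain ⟨_, _, t, ht, hta, htc, hxt⟩ := Finset.mem_filter.mp (hx i hi).1
    obtain ⟨y, hy, hyj⟩ := hmeet t ht hta htc j hj
    have hyM : y ∈ M j := Finset.mem_filter.mpr ⟨ht hy, hyj, t, ht, hta, htc, hy⟩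
    have h1 : y ≤ x i := ((hx j hj).2 y hyM).trans hji
    have h2 : y = x i := hta.eq hy hxt h1
    rw [← hxc i hi, ← h2, hyj]
  by_cases hcase : ∃ i < k', x i ≤ a
  · obtain ⟨i, hi, hia⟩ := hcase
    set K : Finset α := insert a (s'.filter (fun z => c z = i ∧ z ≤ x i)) with hK
    have hKs : s \ K ⊆ s' := by
      intro z hz
      rw [Finset.mem_sdiff] at hz
      rw [hs', Finset.mem_erase]
      refine ⟨?_, hz.1⟩
      rintro rfl
      exact hz.2 (Finset.mem_insert_self _ _)
    have hcardlt : (s \ K).card < n := lt_of_le_of_lt (Finset.card_le_card hKs) hs'card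
    obtain ⟨d, hd1, hd2⟩ := ih (s \ K).card hcardlt (s \ K) (k' - 1) rfl (by
      intro t ht hta
      have h1 := hk'max t (ht.trans hKs) hta
      by_contra hlt
      have h2 : t.card = k' := by omega
      obtain ⟨z, hz, hzi⟩ := hmeet t (ht.trans hKs) hta h2 i hi
      have hzM : z ∈ M i :=
        Finset.mem_filter.mpr ⟨hKs (ht hz), hzi, t, ht.trans hKs, hta, h2, hz⟩
      have h3 := (hx i hi).2 z hzM
      have h4 : z ∈ K := Finset.mem_insert_of_mem (Finset.mem_filter.mpr ⟨hKs (ht hz), hzi, h3⟩)
      exact (Finset.mem_sdiff.mp (ht hz)).2 h4)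
    have hkk : k' ≤ k := hk t0 (ht0.1.trans hs's) ht0.2
    refine ⟨fun z => if z ∈ K then k' - 1 else d z, ?_, ?_⟩
    · intro z hz
      by_cases hzK : z ∈ K
      · simp only [hzK, if_true]; omega
      · simp only [hzK, if_false]
        have := hd1 z (Finset.mem_sdiff.mpr ⟨hz, hzK⟩)
        omega
    · intro y hy z hz hyz
      by_cases hyK : y ∈ K <;> by_cases hzK : z ∈ K
      · rw [hK, Finset.mem_insert, Finset.mem_filter] at hyK hzK
        rcases hyK with rfl | ⟨hy1, hy2, hy3⟩
        · rcases hzK with rfl | ⟨hz1, hz2, hz3⟩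
          · exact Or.inl le_rfl
          · exact Or.inr (hz3.trans hia)
        · rcases hzK with rfl | ⟨hz1, hz2, hz3⟩
          · exact Or.inl (hy3.trans hia)
          · exact hc2 y hy1 z hz1 (hy2.trans hz2.symm)
      · simp only [hyK, if_true, hzK, if_false] at hyz
        have := hd1 z (Finset.mem_sdiff.mpr ⟨hz, hzK⟩)
        omega
      · simp only [hyK, if_false, hzK, if_true] at hyz
        have := hd1 y (Finset.mem_sdiff.mpr ⟨hy, hyK⟩)
        omega
      · simp only [hyK, if_false, hzK] at hyz
        exact hd2 y (Finset.mem_sdiff.mpr ⟨hy, hyK⟩) z (Finset.mem_sdiff.mpr ⟨hz, hzK⟩) hyz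
  · push Not at hcase
    -- T = {x i} ∪ {a} is an antichain
    set T : Finset α := insert a ((Finset.range k').image x) with hT
    have hxinj : Set.InjOn x (Finset.range k' : Set ℕ) := by
      intro i hi j hj hij
      have hi' : i < k' := by simpa using hi
      have hj' : j < k' := by simpa using hj
      exact hxanti i hi' j hj' (le_of_eq hij.symm)
    have haT : a ∉ (Finset.range k').image x := by
      intro h
      obtain ⟨i, hi, hia⟩ := Finset.mem_image.mp h
      have := hxs' i (Finset.mem_range.mp hi)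
      rw [hia] at this
      exact (Finset.mem_erase.mp this).1 rfl
    have hTcard : T.card = k' + 1 := by
      rw [hT, Finset.card_insert_of_notMem haT, Finset.card_image_of_injOn hxinj, Finset.card_range]
    have hTs : T ⊆ s := by
      intro z hz
      rw [hT, Finset.mem_insert] at hz
      rcases hz with rfl | hz
      · exact has
      · obtain ⟨i, hi, rfl⟩ := Finset.mem_image.mp hz
        exact hs's (hxs' i (Finset.mem_range.mp hi))
    have hTa : IsAntichain (· ≤ ·) (T : Set α) := by
      intro y hy z hz hyz hle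
      rw [hT, Finset.mem_coe, Finset.mem_insert] at hy hz
      rcases hy with rfl | hy
      · rcases hz with rfl | hz
        · exact hyz rfl
        · obtain ⟨i, hi, rfl⟩ := Finset.mem_image.mp hz
          exact hyz (hamax _ (hs's (hxs' i (Finset.mem_range.mp hi))) hle).symm
      · obtain ⟨i, hi, rfl⟩ := Finset.mem_image.mp hy
        rcases hz with rfl | hz
        · exact hcase i (Finset.mem_range.mp hi) hle
        · obtain ⟨j, hj, rfl⟩ := Finset.mem_image.mp hz
          have := hxanti j (Finset.mem_range.mp hj) i (Finset.mem_range.mp hi) hle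
          exact hyz (by rw [this])
    have hkk : k' + 1 ≤ k := by rw [← hTcard]; exact hk T hTs hTa
    refine ⟨fun z => if z = a then k' else c z, ?_, ?_⟩
    · intro z hz
      by_cases hza : z = a
      · simp only [hza, if_true]; omega
      · simp only [hza, if_false]
        have := hc1 z (Finset.mem_erase.mpr ⟨hza, hz⟩)
        omega
    · intro y hy z hz hyz
      by_cases hya : y = a <;> by_cases hza : z = a
      · rw [hya, hza]; exact Or.inl le_rfl
      · simp only [hya, if_true, hza, if_false] at hyz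
        have := hc1 z (Finset.mem_erase.mpr ⟨hza, hz⟩)
        omega
      · simp only [hya, if_false, hza, if_true] at hyz
        have := hc1 y (Finset.mem_erase.mpr ⟨hya, hy⟩)
        omega
      · simp only [hya, if_false, hza] at hyz
        exact hc2 y (Finset.mem_erase.mpr ⟨hya, hy⟩) z (Finset.mem_erase.mpr ⟨hza, hz⟩) hyz

/-- Dilworth's theorem for a finite type. -/
theorem dilworth_univ [Fintype α] (k : ℕ)
    (h : ∀ t : Finset α, IsAntichain (· ≤ ·) (t : Set α) → t.card ≤ k) :
    ∃ c : α → ℕ, (∀ x, c x < k) ∧ ∀ x y, c x = c y → x ≤ y ∨ y ≤ x := by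
  classical
  obtain ⟨c, h1, h2⟩ := dilworth _ (Finset.univ : Finset α) k rfl (fun t _ ht => h t ht)
  exact ⟨c, fun x => h1 x (Finset.mem_univ _), fun x y => h2 x (Finset.mem_univ _) y (Finset.mem_univ _)⟩

end Pool.Agent.Helper68
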