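import Mathlib

set_option autoImplicit false

/-!
# Width of a poset carrying a balanced flow

`w x y` is the weight of the covering relation `x < y`, `f` is the centred rank (increasing by `2` along
a covering relation), and the flow is balanced: inflow minus outflow at `x` equals `f x`.
-/

namespace Pool.Agent.Helper68

open Finset

section flow

variable {P : Type*} [Fintype P] (w : P → P → ℝ) (f : P → ℤ)

/-- outflow -/
def outf (x : P) : ℝ := ∑ y, w x y

/-- inflow -/
def inf' (x : P) : ℝ := ∑ z, w z x

open Classical in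
/-- two consecutive values of the centred rank -/
noncomputable def band (j : ℕ) : Finset P := univ.filter (fun x => 2 * (j : ℤ) ≤ f x ∧ f x ≤ 2 * j + 1)

/-- total outflow of a band -/
noncomputable def Zb (j : ℕ) : ℝ := ∑ x ∈ band f j, outf w x

variable {w f}

lemma outf_nonneg (hw0 : ∀ x y, 0 ≤ w x y) (x : P) : 0 ≤ outf w x :=
  Finset.sum_nonneg (fun y _ => hw0 x y)

/-- pushing an antichain down to the middle -/
lemma push_down (r : P → P → Prop) (hr : ∀ x y z, r x y → r y z → r x z)
    (hrf : ∀ x y, r x y → f x + 2 ≤ f y)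
    (hw0 : ∀ x y, 0 ≤ w x y) (hw : ∀ x y, w x y ≠ 0 → r x y ∧ f y = f x + 2)
    (hbal : ∀ x, inf' w x - outf w x = f x) :
    ∀ (h : ℕ) (A : Finset P), (∀ x ∈ A, ∀ y ∈ A, ¬ r x y) →
      (∀ x ∈ A, 0 ≤ f x ∧ f x ≤ h + 1) → ∑ x ∈ A, outf w x ≤ Zb w f 0 := by
  classical
  intro h
  induction h with
  | zero =>
    intro A _ hA
    unfold Zb
    apply Finset.sum_le_sum_of_subset_of_nonneg
    · intro x hx
      unfold band
      simp only [mem_filter, mem_univ, true_and]
      have := hA x hx
      push_cast at this ⊢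
      omega
    · intro x _ _
      exact outf_nonneg hw0 x
  | succ h ih =>
    intro A hanti hA
    set A1 := A.filter (fun x => f x = h + 2) with hA1
    set A0 := A.filter (fun x => ¬ f x = h + 2) with hA0
    set N : Finset P := univ.filter (fun z => ∃ y ∈ A1, w z y ≠ 0) with hN
    have hfN : ∀ z ∈ N, f z = h := by
      intro z hz
      rw [hN, mem_filter] at hz
      obtain ⟨_, y, hy, hzy⟩ := hz
      rw [hA1, mem_filter] at hy
      have := (hw z y hzy).2
      omega
    have hdisj : Disjoint A0 N := by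
      rw [Finset.disjoint_left]
      intro x hx0 hxN
      rw [hA0, mem_filter] at hx0
      rw [hN, mem_filter] at hxN
      obtain ⟨_, y, hy, hxy⟩ := hxN
      rw [hA1, mem_filter] at hy
      exact hanti x hx0.1 y hy.1 (hw x y hxy).1
    have hA' := ih (A0 ∪ N) (by
      intro x hx z hz hxz
      rw [mem_union] at hx hz
      rcases hx with hx | hx <;> rcases hz with hz | hz
      · rw [hA0, mem_filter] at hx hz
        exact hanti x hx.1 z hz.1 hxz
      · rw [hA0, mem_filter] at hx
        rw [hN, mem_filter] at hz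
        obtain ⟨_, y, hy, hzy⟩ := hz
        rw [hA1, mem_filter] at hy
        exact hanti x hx.1 y hy.1 (hr x z y hxz (hw z y hzy).1)
      · have h1 := hrf x z hxz
        have h2 := hfN x hx
        rw [hA0, mem_filter] at hz
        have h3 := (hA z hz.1).2
        have h4 := hz.2
        push_cast at h3
        omega
      · have h1 := hrf x z hxz
        have h2 := hfN x hx
        have h3 := hfN z hz
        omega) (by
      intro x hx
      rw [mem_union] at hx
      rcases hx with hx | hx
      · rw [hA0, mem_filter] at hx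
        have h3 := hA x hx.1
        have h4 := hx.2
        push_cast at h3
        omega
      · have := hfN x hx
        omega)
    rw [Finset.sum_union hdisj] at hA'
    have hsplit : ∑ x ∈ A, outf w x = ∑ x ∈ A1, outf w x + ∑ x ∈ A0, outf w x := by
      rw [hA1, hA0]
      exact (Finset.sum_filter_add_sum_filter_not A _ _).symm
    have hmain : ∑ y ∈ A1, outf w y ≤ ∑ z ∈ N, outf w z := by
      calc ∑ y ∈ A1, outf w y ≤ ∑ y ∈ A1, inf' w y := by
            apply Finset.sum_le_sum
            intro y hy
            rw [hA1, mem_filter] at hy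
            have h1 := hbal y
            have h2 : (0 : ℝ) ≤ f y := by
              have := (hA y hy.1).1
              exact_mod_cast this
            linarith
        _ = ∑ y ∈ A1, ∑ z ∈ N, w z y := by
            apply Finset.sum_congr rfl
            intro y hy
            unfold inf'
            symm
            apply Finset.sum_subset (Finset.subset_univ N)
            intro z _ hz
            by_contra hne
            exact hz (by rw [hN, mem_filter]; exact ⟨mem_univ _, y, hy, hne⟩)
        _ = ∑ z ∈ N, ∑ y ∈ A1, w z y := Finset.sum_comm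
        _ ≤ ∑ z ∈ N, outf w z := by
            apply Finset.sum_le_sum
            intro z _
            unfold outf
            exact Finset.sum_le_sum_of_subset_of_nonneg (Finset.subset_univ _)
              (fun y _ _ => hw0 z y)
    rw [hsplit]
    linarith

lemma Zb_eq (hw : ∀ x y, w x y ≠ 0 → f y = f x + 2)
    (hbal : ∀ x, inf' w x - outf w x = f x) (j : ℕ) :
    Zb w f j = Zb w f (j + 1) + ∑ y ∈ band f (j + 1), (f y : ℝ) := by
  classical
  have h1 : Zb w f j = ∑ y ∈ band f (j + 1), inf' w y := by
    unfold Zb outf inf'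
    calc ∑ x ∈ band f j, ∑ y, w x y = ∑ x ∈ band f j, ∑ y ∈ band f (j + 1), w x y := by
          apply Finset.sum_congr rfl
          intro x hx
          symm
          apply Finset.sum_subset (Finset.subset_univ _)
          intro y _ hy
          by_contra hne
          apply hy
          have h2 := hw x y hne
          unfold band at hx ⊢
          simp only [mem_filter, mem_univ, true_and] at hx ⊢
          push_cast
          omega
      _ = ∑ y ∈ band f (j + 1), ∑ x ∈ band f j, w x y := Finset.sum_comm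
      _ = ∑ y ∈ band f (j + 1), ∑ x, w x y := by
          apply Finset.sum_congr rfl
          intro y hy
          apply Finset.sum_subset (Finset.subset_univ _)
          intro x _ hx
          by_contra hne
          apply hx
          have h2 := hw x y hne
          unfold band at hy ⊢
          simp only [mem_filter, mem_univ, true_and] at hy ⊢
          push_cast at hy
          omega
  rw [h1]
  unfold Zb
  rw [← Finset.sum_add_distrib]
  apply Finset.sum_congr rfl
  intro y _
  have := hbal y
  linarith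

/-- upper bound for the outflow of the middle band -/
lemma Zb_zero_le (hw0 : ∀ x y, 0 ≤ w x y) (hw : ∀ x y, w x y ≠ 0 → f y = f x + 2)
    (hbal : ∀ x, inf' w x - outf w x = f x) (B : Finset P) (D D' : ℝ) (hD : 0 < D)
    (hout : ∀ x, x ∉ B → D ≤ outf w x) (hD' : ∀ x, outf w x ≤ D') (T : ℕ)
    (hT : (T : ℝ) ^ 2 + 2 * T ≤ D / 2) :
    Zb w f 0 ≤ 2 * D' * Fintype.card P / (T + 1) + 2 * (2 * T + 1) * B.card := by
  classical
  have hZ0 : ∀ j, 0 ≤ Zb w f j := fun j => Finset.sum_nonneg (fun x _ => outf_nonneg hw0 x)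
  have hdec : ∀ j, Zb w f (j + 1) ≤ Zb w f j := by
    intro j
    rw [Zb_eq hw hbal j]
    have : 0 ≤ ∑ y ∈ band f (j + 1), (f y : ℝ) := by
      apply Finset.sum_nonneg
      intro y hy
      unfold band at hy
      simp only [mem_filter, mem_univ, true_and] at hy
      have : (0 : ℤ) ≤ f y := by omega
      exact_mod_cast this
    linarith
  have hle0 : ∀ j, Zb w f j ≤ Zb w f 0 := by
    intro j
    induction j with
    | zero => exact le_rfl
    | succ j ih => exact (hdec j).trans ih
  have hband : ∀ j, ((band f j).card : ℝ) ≤ Zb w f 0 / D + ((B ∩ band f j).card : ℝ) := by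
    intro j
    have h1 : ((band f j).card : ℝ) = ((band f j \ B).card : ℝ) + ((B ∩ band f j).card : ℝ) := by
      have := Finset.card_sdiff_add_card_inter (band f j) B
      rw [Finset.inter_comm] at this
      exact_mod_cast this.symm
    have h2 : ((band f j \ B).card : ℝ) * D ≤ Zb w f j := by
      calc ((band f j \ B).card : ℝ) * D = ∑ _x ∈ band f j \ B, D := by
            rw [Finset.sum_const, nsmul_eq_mul]
        _ ≤ ∑ x ∈ band f j \ B, outf w x := by
            apply Finset.sum_le_sum
            intro x hx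
            exact hout x (Finset.mem_sdiff.mp hx).2
        _ ≤ Zb w f j := Finset.sum_le_sum_of_subset_of_nonneg Finset.sdiff_subset
            (fun x _ _ => outf_nonneg hw0 x)
    have h3 : ((band f j \ B).card : ℝ) ≤ Zb w f 0 / D := by
      rw [le_div_iff₀ hD]
      exact h2.trans (hle0 j)
    linarith
  -- disjointness of bands
  have hdisj : ∀ (t : ℕ) (S : Finset P), ∑ j ∈ range t, ((S ∩ band f (j + 1)).card : ℝ) ≤ S.card := by
    intro t S
    have h1 : ∑ j ∈ range t, (S ∩ band f (j + 1)).card =
        ((range t).biUnion (fun j => S ∩ band f (j + 1))).card := by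
      symm
      apply Finset.card_biUnion
      intro i _ j _ hij
      rw [Function.onFun, Finset.disjoint_left]
      intro x hx hx'
      unfold band at hx hx'
      simp only [mem_inter, mem_filter, mem_univ, true_and] at hx hx'
      push_cast at hx hx'
      omega
    have h2 : ((range t).biUnion (fun j => S ∩ band f (j + 1))).card ≤ S.card := by
      apply Finset.card_le_card
      intro x hx
      rw [Finset.mem_biUnion] at hx
      obtain ⟨j, _, hj⟩ := hx
      exact (Finset.mem_inter.mp hj).1
    rw [← h1] at h2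
    exact_mod_cast h2
  have hstep : ∀ t : ℕ, Zb w f 0 ≤ Zb w f t + ∑ j ∈ range t, (2 * (j : ℝ) + 3) * ((band f (j + 1)).card : ℝ) := by
    intro t
    induction t with
    | zero => simp
    | succ t ih =>
      rw [Finset.sum_range_succ]
      have h1 := Zb_eq hw hbal t
      have h2 : ∑ y ∈ band f (t + 1), (f y : ℝ) ≤ (2 * (t : ℝ) + 3) * ((band f (t + 1)).card : ℝ) := by
        calc ∑ y ∈ band f (t + 1), (f y : ℝ) ≤ ∑ _y ∈ band f (t + 1), (2 * (t : ℝ) + 3) := by
              apply Finset.sum_le_sum
              intro y hy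
              unfold band at hy
              simp only [mem_filter, mem_univ, true_and] at hy
              have h3 : f y ≤ 2 * (t : ℤ) + 3 := by
                have := hy.2
                push_cast at this
                omega
              exact_mod_cast h3
          _ = _ := by rw [Finset.sum_const, nsmul_eq_mul]; ring
      linarith
  have hsq : ∀ t : ℕ, ∑ j ∈ range t, (2 * (j : ℝ) + 3) = (t : ℝ) ^ 2 + 2 * t := by
    intro t
    induction t with
    | zero => simp
    | succ t ih => rw [Finset.sum_range_succ, ih]; push_cast; ring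
  have hB0 : (0 : ℝ) ≤ B.card := Nat.cast_nonneg _
  have hkey : ∀ t : ℕ, t ≤ T → Zb w f 0 / 2 ≤ Zb w f t + (2 * (T : ℝ) + 1) * B.card := by
    intro t ht
    have htT : (t : ℝ) ≤ T := by exact_mod_cast ht
    have ht0 : (0 : ℝ) ≤ t := Nat.cast_nonneg _
    have h1 : ∑ j ∈ range t, (2 * (j : ℝ) + 3) * ((band f (j + 1)).card : ℝ) ≤
        ((t : ℝ) ^ 2 + 2 * t) * (Zb w f 0 / D) + (2 * (T : ℝ) + 1) * B.card := by
      calc ∑ j ∈ range t, (2 * (j : ℝ) + 3) * ((band f (j + 1)).card : ℝ)
          ≤ ∑ j ∈ range t, ((2 * (j : ℝ) + 3) * (Zb w f 0 / D) +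
              (2 * (T : ℝ) + 1) * ((B ∩ band f (j + 1)).card : ℝ)) := by
            apply Finset.sum_le_sum
            intro j hj
            have hjt : j + 1 ≤ T := le_trans (Nat.succ_le_of_lt (Finset.mem_range.mp hj)) ht
            have hjt' : (j : ℝ) + 1 ≤ T := by exact_mod_cast hjt
            have h2 := hband (j + 1)
            have h3 : (0 : ℝ) ≤ (2 * (j : ℝ) + 3) := by positivity
            have h4 : (0 : ℝ) ≤ ((B ∩ band f (j + 1)).card : ℝ) := Nat.cast_nonneg _
            calc (2 * (j : ℝ) + 3) * ((band f (j + 1)).card : ℝ)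
                ≤ (2 * (j : ℝ) + 3) * (Zb w f 0 / D + ((B ∩ band f (j + 1)).card : ℝ)) :=
                  mul_le_mul_of_nonneg_left h2 h3
              _ = (2 * (j : ℝ) + 3) * (Zb w f 0 / D) + (2 * (j : ℝ) + 3) * ((B ∩ band f (j + 1)).card : ℝ) := by ring
              _ ≤ _ := by
                have : (2 * (j : ℝ) + 3) * ((B ∩ band f (j + 1)).card : ℝ) ≤
                    (2 * (T : ℝ) + 1) * ((B ∩ band f (j + 1)).card : ℝ) :=
                  mul_le_mul_of_nonneg_right (by linarith) h4
                linarith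
        _ = ((t : ℝ) ^ 2 + 2 * t) * (Zb w f 0 / D) +
              (2 * (T : ℝ) + 1) * ∑ j ∈ range t, ((B ∩ band f (j + 1)).card : ℝ) := by
            rw [Finset.sum_add_distrib, ← Finset.sum_mul, hsq, ← Finset.mul_sum]
        _ ≤ _ := by
            have := hdisj t B
            have h5 : (0 : ℝ) ≤ 2 * (T : ℝ) + 1 := by positivity
            have := mul_le_mul_of_nonneg_left this h5
            linarith
    have h2 := hstep t
    have h3 : ((t : ℝ) ^ 2 + 2 * t) * (Zb w f 0 / D) ≤ Zb w f 0 / 2 := by
      have h4 : (t : ℝ) ^ 2 + 2 * t ≤ D / 2 := by nlinarith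
      have h5 : 0 ≤ Zb w f 0 / D := div_nonneg (hZ0 0) hD.le
      calc ((t : ℝ) ^ 2 + 2 * t) * (Zb w f 0 / D) ≤ (D / 2) * (Zb w f 0 / D) :=
            mul_le_mul_of_nonneg_right h4 h5
        _ = Zb w f 0 / 2 := by field_simp
    linarith
  have hsum : ∑ t ∈ range (T + 1), Zb w f t ≤ D' * Fintype.card P := by
    have h1 : ∑ t ∈ range (T + 1), Zb w f t =
        ∑ x ∈ (range (T + 1)).biUnion (fun t => band f t), outf w x := by
      unfold Zb
      symm
      apply Finset.sum_biUnion
      intro i _ j _ hij
      rw [Function.onFun, Finset.disjoint_left]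
      intro x hx hx'
      unfold band at hx hx'
      simp only [mem_filter, mem_univ, true_and] at hx hx'
      omega
    rw [h1]
    calc ∑ x ∈ (range (T + 1)).biUnion (fun t => band f t), outf w x ≤ ∑ x, outf w x :=
          Finset.sum_le_sum_of_subset_of_nonneg (Finset.subset_univ _) (fun x _ _ => outf_nonneg hw0 x)
      _ ≤ ∑ _x : P, D' := Finset.sum_le_sum (fun x _ => hD' x)
      _ = D' * Fintype.card P := by rw [Finset.sum_const, Finset.card_univ, nsmul_eq_mul]; ring
  have hfin : ((T : ℝ) + 1) * (Zb w f 0 / 2) ≤ D' * Fintype.card P + (T + 1) * ((2 * (T : ℝ) + 1) * B.card) := by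
    calc ((T : ℝ) + 1) * (Zb w f 0 / 2) = ∑ _t ∈ range (T + 1), Zb w f 0 / 2 := by
          rw [Finset.sum_const, card_range, nsmul_eq_mul]; push_cast; ring
      _ ≤ ∑ t ∈ range (T + 1), (Zb w f t + (2 * (T : ℝ) + 1) * B.card) := by
          apply Finset.sum_le_sum
          intro t ht
          exact hkey t (Nat.lt_succ_iff.mp (Finset.mem_range.mp ht))
      _ = ∑ t ∈ range (T + 1), Zb w f t + (T + 1) * ((2 * (T : ℝ) + 1) * B.card) := by
          rw [Finset.sum_add_distrib, Finset.sum_const, card_range, nsmul_eq_mul]; push_cast; ring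
      _ ≤ _ := by linarith
  have hT1 : (0 : ℝ) < (T : ℝ) + 1 := by positivity
  have h6 : 2 * D' * Fintype.card P / (T + 1) + 2 * (2 * (T : ℝ) + 1) * B.card =
      (2 / ((T : ℝ) + 1)) * (D' * Fintype.card P + (T + 1) * ((2 * (T : ℝ) + 1) * B.card)) := by
    field_simp
  rw [h6]
  have h7 : Zb w f 0 = (2 / ((T : ℝ) + 1)) * (((T : ℝ) + 1) * (Zb w f 0 / 2)) := by
    field_simp
  rw [h7]
  exact mul_le_mul_of_nonneg_left hfin (by positivity)

/-- one-sided width bound -/
lemma half_width (r : P → P → Prop) (hr : ∀ x y z, r x y → r y z → r x z)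
    (hrf : ∀ x y, r x y → f x + 2 ≤ f y)
    (hw0 : ∀ x y, 0 ≤ w x y) (hw : ∀ x y, w x y ≠ 0 → r x y ∧ f y = f x + 2)
    (hbal : ∀ x, inf' w x - outf w x = f x) (B : Finset P) (D D' : ℝ) (hD : 0 < D)
    (hout : ∀ x, x ∉ B → D ≤ outf w x) (hD' : ∀ x, outf w x ≤ D') (T : ℕ)
    (hT : (T : ℝ) ^ 2 + 2 * T ≤ D / 2)
    (A : Finset P) (hA : ∀ x ∈ A, ∀ y ∈ A, ¬ r x y) (hA0 : ∀ x ∈ A, 0 ≤ f x) :
    (A.card : ℝ) ≤ B.card +
      (2 * D' * Fintype.card P / (T + 1) + 2 * (2 * T + 1) * B.card) / D := by
  classical
  obtain ⟨h, hh⟩ : ∃ h : ℕ, ∀ x ∈ A, f x ≤ h + 1 := by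
    refine ⟨∑ x ∈ A, (f x).toNat, ?_⟩
    intro x hx
    have h1 : (f x).toNat ≤ ∑ x ∈ A, (f x).toNat :=
      Finset.single_le_sum (f := fun x => (f x).toNat) (fun _ _ => Nat.zero_le _) hx
    have h2 : f x ≤ ((f x).toNat : ℤ) := Int.self_le_toNat _
    have h3 : ((f x).toNat : ℤ) ≤ ((∑ x ∈ A, (f x).toNat : ℕ) : ℤ) := by exact_mod_cast h1
    linarith
  have h1 := push_down r hr hrf hw0 hw hbal h A hA (fun x hx => ⟨hA0 x hx, hh x hx⟩)
  have h2 := Zb_zero_le hw0 (fun x y hxy => (hw x y hxy).2) hbal B D D' hD hout hD' T hT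
  have h3 : ((A \ B).card : ℝ) * D ≤ ∑ x ∈ A, outf w x := by
    calc ((A \ B).card : ℝ) * D = ∑ _x ∈ A \ B, D := by
          rw [Finset.sum_const, nsmul_eq_mul]
      _ ≤ ∑ x ∈ A \ B, outf w x := by
          apply Finset.sum_le_sum
          intro x hx
          exact hout x (Finset.mem_sdiff.mp hx).2
      _ ≤ ∑ x ∈ A, outf w x := Finset.sum_le_sum_of_subset_of_nonneg Finset.sdiff_subset
          (fun x _ _ => outf_nonneg hw0 x)
  have h4 : (A.card : ℝ) ≤ B.card + (A \ B).card := by
    have h5 : A ⊆ B ∪ (A \ B) := by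
      intro x hx
      by_cases hb : x ∈ B
      · exact mem_union_left _ hb
      · exact mem_union_right _ (mem_sdiff.mpr ⟨hx, hb⟩)
    have := (Finset.card_le_card h5).trans (Finset.card_union_le _ _)
    exact_mod_cast this
  have h5 : ((A \ B).card : ℝ) ≤
      (2 * D' * Fintype.card P / (T + 1) + 2 * (2 * T + 1) * B.card) / D := by
    rw [le_div_iff₀ hD]
    linarith
  linarith

/-- width bound -/
theorem width_bound [PartialOrder P] (hrf : ∀ x y : P, x < y → f x + 2 ≤ f y)
    (hw0 : ∀ x y, 0 ≤ w x y) (hw : ∀ x y, w x y ≠ 0 → x < y ∧ f y = f x + 2)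
    (hbal : ∀ x, inf' w x - outf w x = f x) (B : Finset P) (D D' : ℝ) (hD : 0 < D)
    (hout : ∀ x, x ∉ B → D ≤ outf w x) (hin : ∀ x, x ∉ B → D ≤ inf' w x)
    (hD' : ∀ x, outf w x ≤ D') (hD'' : ∀ x, inf' w x ≤ D') (T : ℕ)
    (hT : (T : ℝ) ^ 2 + 2 * T ≤ D / 2)
    (A : Finset P) (hA : IsAntichain (· ≤ ·) (A : Set P)) :
    (A.card : ℝ) ≤ 2 * (B.card +
      (2 * D' * Fintype.card P / (T + 1) + 2 * (2 * T + 1) * B.card) / D) := by
  classical
  have hA' : ∀ x ∈ A, ∀ y ∈ A, ¬ x < y := fun x hx y hy hxy => hA hx hy hxy.ne hxy.le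
  have h1 := half_width (w := w) (f := f) (fun x y => x < y) (fun x y z => lt_trans) hrf hw0 hw hbal
    B D D' hD hout hD' T hT (A.filter (fun x => 0 ≤ f x))
    (fun x hx y hy => hA' x (mem_filter.mp hx).1 y (mem_filter.mp hy).1)
    (fun x hx => (mem_filter.mp hx).2)
  have h2 := half_width (w := fun x y => w y x) (f := fun x => - f x) (fun x y => y < x)
    (fun x y z hxy hyz => lt_trans hyz hxy) (by
      intro x y hxy
      have := hrf y x hxy
      omega) (fun x y => hw0 y x) (by
      intro x y hxy
      have := hw y x hxy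
      refine ⟨this.1, ?_⟩
      omega) (by
      intro x
      have h := hbal x
      show outf w x - inf' w x = ((- f x : ℤ) : ℝ)
      push_cast
      linarith) B D D' hD hin hD'' T hT (A.filter (fun x => ¬ 0 ≤ f x))
    (fun x hx y hy => hA' y (mem_filter.mp hy).1 x (mem_filter.mp hx).1)
    (fun x hx => by
      have := (mem_filter.mp hx).2
      omega)
  have h3 : (A.card : ℝ) = (A.filter (fun x => 0 ≤ f x)).card + (A.filter (fun x => ¬ 0 ≤ f x)).card := by
    exact_mod_cast (Finset.card_filter_add_card_filter_not (s := A) (fun x => 0 ≤ f x)).symm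
  rw [h3]
  linarith

/-- second moment identity: the sum of squares of the centred ranks is twice the total flow -/
lemma second_moment (hw : ∀ x y, w x y ≠ 0 → f y = f x + 2)
    (hbal : ∀ x, inf' w x - outf w x = f x) :
    ∑ x, (f x : ℝ) ^ 2 = 2 * ∑ x, outf w x := by
  have h1 : ∑ x, (f x : ℝ) ^ 2 = ∑ x, (f x : ℝ) * inf' w x - ∑ x, (f x : ℝ) * outf w x := by
    rw [← Finset.sum_sub_distrib]
    apply Finset.sum_congr rfl
    intro x _
    have := hbal x
    rw [← mul_sub, this]; ring
  have h2 : ∑ x, (f x : ℝ) * inf' w x = ∑ x, ∑ y, w x y * (f y : ℝ) := by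
    unfold inf'
    rw [Finset.sum_comm]
    apply Finset.sum_congr rfl
    intro y _
    rw [Finset.mul_sum]
    apply Finset.sum_congr rfl
    intro x _
    ring
  have h3 : ∑ x, (f x : ℝ) * outf w x = ∑ x, ∑ y, w x y * (f x : ℝ) := by
    unfold outf
    apply Finset.sum_congr rfl
    intro x _
    rw [Finset.mul_sum]
    apply Finset.sum_congr rfl
    intro y _
    ring
  rw [h1, h2, h3, ← Finset.sum_sub_distrib, Finset.mul_sum]
  apply Finset.sum_congr rfl
  intro x _
  rw [← Finset.sum_sub_distrib]
  unfold outf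
  rw [Finset.mul_sum]
  apply Finset.sum_congr rfl
  intro y _
  by_cases h : w x y = 0
  · rw [h]; ring
  · have := hw x y h
    rw [this]; push_cast; ring

end flow

end Pool.Agent.Helper68
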