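import Pool.Agent.Helper79.NC.Spec2
import Pool.Agent.Helper44.NCSpiralLyap2
import Pool.Agent.Helper96.NCSpiralSmooth
import Pool.Agent.Helper2.NC.SpiralCriterion

/-!
# The tube data (module M1b of `MP_4787eb_gt`)
-/

set_option autoImplicit false
set_option maxSynthPendingDepth 3

namespace Pool.Agent.Helper68.NCT

open Pool.Agent.Helper79.NC
open scoped ContDiff Topology
open Set Filter

/-! ### scaling -/

theorem fderiv_scale (f : ℂ → ℝ) (L : ℝ) (w : ℂ) :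
    fderiv ℝ (fun x => f (L • x)) w = L • fderiv ℝ f (L • w) := fderiv_comp_smul L

theorem fderiv_fderiv_scale (f : ℂ → ℝ) (L : ℝ) (w : ℂ) :
    fderiv ℝ (fderiv ℝ (fun x => f (L • x))) w = (L ^ 2) • fderiv ℝ (fderiv ℝ f) (L • w) := by
  have h : fderiv ℝ (fun x => f (L • x)) = L • fun w => fderiv ℝ f (L • w) := by
    funext w; exact fderiv_scale f L w
  rw [h, fderiv_const_smul_field, Pi.smul_apply, fderiv_comp_smul (f := fderiv ℝ f) L, smul_smul, sq]

theorem logCriterion_scale {f : ℂ → ℝ} {L δ : ℝ} {w : ℂ} (h : LogCriterion δ f (L • w)) :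
    LogCriterion δ (fun x => f (L • x)) w := by
  intro X
  have h1 := h X
  unfold gradSq at h1 ⊢
  rw [fderiv_scale, fderiv_fderiv_scale]
  simp only [smul_apply, smul_eq_mul] at h1 ⊢
  nlinarith [mul_le_mul_of_nonneg_left h1 (sq_nonneg L)]

theorem gradC_scale (f : ℂ → ℝ) (L : ℝ) (w : ℂ) :
    gradC (fun x => f (L • x)) w = L • gradC f (L • w) := by
  unfold gradC
  rw [fderiv_scale]
  apply Complex.ext <;> simp

/-! ### functions of the norm -/

theorem contDiff_comp_norm {f : ℝ → ℝ} (hf : ContDiff ℝ ∞ f) {c : ℝ} (hc : 0 < c)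
    (h0 : ∀ ρ ≤ c, f ρ = 0) : ContDiff ℝ ∞ (fun w : ℂ => f ‖w‖) := by
  rw [contDiff_iff_contDiffAt]
  intro w
  by_cases hw : w = 0
  · subst hw
    have : (fun w : ℂ => f ‖w‖) =ᶠ[𝓝 0] fun _ => (0 : ℝ) := by
      have h1 : ∀ᶠ w : ℂ in 𝓝 0, ‖w‖ < c := by
        have := (continuous_norm (E := ℂ)).continuousAt (x := 0)
        exact this.eventually (by simpa using gt_mem_nhds hc)
      filter_upwards [h1] with w hw
      exact h0 _ hw.le
    exact contDiffAt_const.congr_of_eventuallyEq this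
  · exact hf.contDiffAt.comp w (contDiffAt_norm ℝ hw)

/-- the cut-off of the function `σ` -/
noncomputable def eta (ρ : ℝ) : ℝ := Real.smoothTransition (10000 * ρ - 4)

theorem contDiff_eta : ContDiff ℝ ∞ eta := by
  unfold eta
  exact Real.smoothTransition.contDiff.comp (by fun_prop)

theorem eta_zero {ρ : ℝ} (h : ρ ≤ 4 / 10000) : eta ρ = 0 :=
  Real.smoothTransition.zero_of_nonpos (by linarith)

theorem eta_one {ρ : ℝ} (h : 5 / 10000 ≤ ρ) : eta ρ = 1 :=
  Real.smoothTransition.one_of_one_le (by linarith)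

theorem eta_nonneg (ρ : ℝ) : 0 ≤ eta ρ := Real.smoothTransition.nonneg _

theorem eta_le_one (ρ : ℝ) : eta ρ ≤ 1 := Real.smoothTransition.le_one _

theorem eta_mono : Monotone eta := fun a b h =>
  Real.smoothTransition.monotone (by linarith)

/-! ### the potential -/

/-- the potential -/
noncomputable def PhiF (N K : ℝ) (Q : ℝ → ℝ) (w : ℂ) : ℝ := spiral N K ((10000 : ℝ) • w) + Q ‖w‖

/-- the function `σ` -/
noncomputable def sigF (w : ℂ) : ℝ := eta ‖w‖ / (1 + Complex.normSq w)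

theorem norm_L (w : ℂ) : ‖(10000 : ℝ) • w‖ = 10000 * ‖w‖ := by
  rw [norm_smul]; norm_num

theorem spiral_large (N K : ℝ) {w : ℂ} (h : 175 / 1000000 ≤ ‖w‖) :
    spiral N K ((10000 : ℝ) • w) = profR N K ‖w‖ := by
  have h1 : ¬ ‖(10000 : ℝ) • w‖ ≤ 1 := by rw [norm_L]; linarith
  have h2 : spLam (‖(10000 : ℝ) • w‖ - 1) = 1 := by
    unfold spLam
    refine Real.smoothTransition.one_of_one_le ?_
    rw [norm_L]; linarith
  have h3 : spTau ((10000 : ℝ) • w) = 1 := by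
    unfold spTau
    rw [h2]; ring
  unfold spiral profR
  rw [if_neg h1, if_neg (by rw [h3]; norm_num), h3, norm_L, inv_one]

theorem spTau_le (w : ℂ) : spTau w ≤ 2 := by
  have h1 : |(spE w).re| ≤ 1 := by
    refine (Complex.abs_re_le_norm _).trans ?_
    unfold spE
    rw [norm_mul, norm_div, Complex.norm_real, norm_norm, Complex.norm_exp]
    have : (-(((1 / (‖w‖ - 1) : ℝ) : ℂ) * Complex.I)).re = 0 := by
      rw [Complex.neg_re, Complex.re_ofReal_mul, Complex.I_re]; ring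
    rw [this, Real.exp_zero, mul_one]
    exact div_self_le_one _
  have h2 := Pool.Agent.Helper44.NCL.spLam_nonneg (‖w‖ - 1)
  have h3 := Pool.Agent.Helper44.NCL.spLam_le_one (‖w‖ - 1)
  unfold spTau
  have h4 : |(1 - spLam (‖w‖ - 1)) * (spE w).re| ≤ 1 := by
    rw [abs_mul, abs_of_nonneg (by linarith : (0:ℝ) ≤ 1 - spLam (‖w‖ - 1))]
    exact mul_le_one₀ (by linarith) (abs_nonneg _) h1
  have := neg_abs_le ((1 - spLam (‖w‖ - 1)) * (spE w).re)
  linarith

theorem spiral_le {N K : ℝ} (hN : 10 ≤ N) (hK : 0 < K) (w : ℂ) : spiral N K w ≤ 1 / 100 := by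
  unfold spiral
  split_ifs with h1 h2
  · norm_num
  · norm_num
  · rw [not_le] at h1 h2
    have h3 : (1 : ℝ) / 2 ≤ (spTau w)⁻¹ := by
      rw [one_div]
      exact inv_anti₀ h2 (spTau_le w)
    have h4 : 0 ≤ K * ((‖w‖ - 1) ^ 7)⁻¹ := by
      have : 0 < ‖w‖ - 1 := by linarith
      positivity
    have h5 : (5 : ℝ) ≤ N * (K * ((‖w‖ - 1) ^ 7)⁻¹ + (spTau w)⁻¹) := by nlinarith
    have h6 : Real.exp (-(N * (K * ((‖w‖ - 1) ^ 7)⁻¹ + (spTau w)⁻¹))) ≤ Real.exp (-5) :=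
      Real.exp_le_exp.2 (by linarith)
    refine h6.trans ?_
    rw [Real.exp_neg, one_div]
    refine inv_anti₀ (by norm_num) ?_
    have h7 := Real.exp_one_gt_d9
    have h8 : Real.exp 5 = Real.exp 1 ^ 5 := by rw [← Real.exp_nat_mul]; norm_num
    rw [h8]
    calc (100 : ℝ) ≤ 2.7 ^ 5 := by norm_num
      _ ≤ Real.exp 1 ^ 5 := by gcongr; linarith

/-- the profile `P` as a function of `u` -/
noncomputable def Pu (N K : ℝ) (Q : ℝ → ℝ) (u : ℝ) : ℝ := profR N K √u + Q √u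

/-- the function `S` -/
noncomputable def Su (u : ℝ) : ℝ := eta √u / (1 + u)

theorem sqrt_normSq (w : ℂ) : √(Complex.normSq w) = ‖w‖ := by
  rw [Complex.normSq_eq_norm_sq, Real.sqrt_sq (norm_nonneg _)]

theorem contDiffAt_profR (N K : ℝ) {ρ : ℝ} (h : 1 / 10000 < ρ) : ContDiffAt ℝ ∞ (profR N K) ρ := by
  unfold profR
  have h1 : (10000 * ρ - 1) ^ 7 ≠ 0 := pow_ne_zero _ (by linarith)
  have h2 : ContDiffAt ℝ ∞ (fun ρ : ℝ => ((10000 * ρ - 1) ^ 7)⁻¹) ρ := by
    refine ContDiffAt.inv (by fun_prop) h1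
  exact (contDiffAt_const.mul ((contDiffAt_const.mul h2).add contDiffAt_const)).neg.exp

/-- derivatives of a function of `√u` -/
theorem hasDerivAt_comp_sqrt {φ : ℝ → ℝ} {u : ℝ} (hu : 0 < u) (hφ : DifferentiableAt ℝ φ √u) :
    HasDerivAt (fun u => φ √u) (deriv φ √u / (2 * √u)) u := by
  have h1 := hφ.hasDerivAt.comp u (Real.hasDerivAt_sqrt hu.ne')
  exact h1.congr_deriv (by rw [one_div, div_eq_mul_inv])

theorem deriv_two {φ : ℝ → ℝ} {u a : ℝ} (ha : 0 < a) (hu : a < √u)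
    (hφ : ∀ ρ, a < ρ → ContDiffAt ℝ ∞ φ ρ) :
    deriv (fun u => φ √u) u = deriv φ √u / (2 * √u) ∧
    deriv (deriv (fun u => φ √u)) u = (deriv (deriv φ) √u - deriv φ √u / √u) / (4 * u) := by
  have hu0 : 0 < u := Real.sqrt_pos.1 (ha.trans hu)
  have hs0 : 0 < √u := ha.trans hu
  have hd : ∀ v, a < √v → deriv (fun u => φ √u) v = deriv φ √v / (2 * √v) := by
    intro v hv
    exact (hasDerivAt_comp_sqrt (Real.sqrt_pos.1 (ha.trans hv))
      ((hφ _ hv).differentiableAt (by simp))).deriv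
  refine ⟨hd u hu, ?_⟩
  have hev : deriv (fun u => φ √u) =ᶠ[𝓝 u] fun v => deriv φ √v / (2 * √v) := by
    have : ∀ᶠ v in 𝓝 u, a < √v := Real.continuous_sqrt.continuousAt.eventually (lt_mem_nhds hu)
    filter_upwards [this] with v hv using hd v hv
  rw [hev.deriv_eq]
  have hφ' : DifferentiableAt ℝ (deriv φ) √u := by
    have h2 : ContDiffAt ℝ 1 (fderiv ℝ φ) √u := (hφ _ hu).fderiv_right (by norm_cast)
    exact (h2.differentiableAt (by simp)).clm_apply (differentiableAt_const (1 : ℝ))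
  have h1 : HasDerivAt (fun v => deriv φ √v / (2 * √v)) _ u :=
    (hasDerivAt_comp_sqrt hu0 hφ').div ((Real.hasDerivAt_sqrt hu0.ne').const_mul 2) (by positivity)
  rw [h1.deriv]
  have hsq : √u ^ 2 = u := Real.sq_sqrt hu0.le
  have key : ∀ A B ρ v : ℝ, 0 < ρ → ρ ^ 2 = v →
      (B / (2 * ρ) * (2 * ρ) - A * (2 * (1 / (2 * ρ)))) / (2 * ρ) ^ 2 = (B - A / ρ) / (4 * v) := by
    intro A B ρ v hρ hv
    subst hv
    field_simp
    ring
  exact key _ _ _ _ hs0 hsq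


/-! ### the fields -/

theorem PhiF_large (N K : ℝ) (Q : ℝ → ℝ) {w : ℂ} (h : 175 / 1000000 ≤ ‖w‖) :
    PhiF N K Q w = profR N K ‖w‖ + Q ‖w‖ := by
  unfold PhiF
  rw [spiral_large N K h]

theorem PhiF_small {N K : ℝ} {Q : ℝ → ℝ} (hQ0 : ∀ ρ ≤ 35 / 100000, Q ρ = 0) {w : ℂ}
    (h : ‖w‖ ≤ 35 / 100000) : PhiF N K Q w = spiral N K ((10000 : ℝ) • w) := by
  unfold PhiF
  rw [hQ0 _ h, add_zero]

theorem contDiff_PhiF {N K : ℝ} {Q : ℝ → ℝ} (hN : 0 < N) (hK : 0 < K) (hQ : ContDiff ℝ ∞ Q)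
    (hQ0 : ∀ ρ ≤ 35 / 100000, Q ρ = 0) : ContDiff ℝ ∞ (PhiF N K Q) := by
  have h1 : ContDiff ℝ ∞ (fun w : ℂ => spiral N K ((10000 : ℝ) • w)) :=
    (Pool.Agent.Helper96.NCS.spiralSmooth N K hN hK).comp (contDiff_const_smul (10000 : ℝ))
  exact h1.add (contDiff_comp_norm hQ (by norm_num : (0 : ℝ) < 35 / 100000) hQ0)

theorem one_add_normSq_pos (w : ℂ) : 0 < 1 + Complex.normSq w := by
  have := Complex.normSq_nonneg w
  linarith

theorem contDiff_sigF : ContDiff ℝ ∞ sigF := by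
  have h1 : ContDiff ℝ ∞ (fun w : ℂ => eta ‖w‖) :=
    contDiff_comp_norm contDiff_eta (by norm_num : (0 : ℝ) < 4 / 10000) fun ρ h => eta_zero h
  have h2 : ContDiff ℝ ∞ (fun w : ℂ => 1 + Complex.normSq w) := by
    have : (fun w : ℂ => 1 + Complex.normSq w) = fun w : ℂ => 1 + ‖w‖ ^ 2 := by
      funext w; rw [Complex.normSq_eq_norm_sq]
    rw [this]
    exact contDiff_const.add (contDiff_norm_sq ℝ)
  unfold sigF
  exact h1.div h2 fun w => (one_add_normSq_pos w).ne'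

theorem norm_gt {w : ℂ} {a : ℝ} (h : a ^ 2 < Complex.normSq w) : a < ‖w‖ := by
  rw [Complex.normSq_eq_norm_sq] at h
  exact lt_of_pow_lt_pow_left₀ 2 (norm_nonneg _) h

theorem norm_ge {w : ℂ} {a : ℝ} (ha : 0 ≤ a) (h : a ^ 2 ≤ Complex.normSq w) : a ≤ ‖w‖ := by
  rw [Complex.normSq_eq_norm_sq] at h
  exact (pow_le_pow_iff_left₀ ha (norm_nonneg _) two_ne_zero).1 h

theorem norm_lt {w : ℂ} {a : ℝ} (ha : 0 ≤ a) (h : Complex.normSq w < a ^ 2) : ‖w‖ < a := by
  rw [Complex.normSq_eq_norm_sq] at h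
  exact lt_of_pow_lt_pow_left₀ 2 ha h

theorem logCriterion_congr {f g : ℂ → ℝ} {w : ℂ} {δ : ℝ} (h : f =ᶠ[𝓝 w] g)
    (hg : LogCriterion δ g w) : LogCriterion δ f w := by
  intro X
  have h1 := hg X
  unfold gradSq at h1 ⊢
  rw [h.fderiv.fderiv_eq, h.fderiv_eq, h.self_of_nhds]
  exact h1

theorem gradC_congr {f g : ℂ → ℝ} {w : ℂ} (h : f =ᶠ[𝓝 w] g) : gradC f w = gradC g w := by
  unfold gradC
  rw [h.fderiv_eq]

theorem PhiF_ev {N K : ℝ} {Q : ℝ → ℝ} (hQ0 : ∀ ρ ≤ 35 / 100000, Q ρ = 0) {w : ℂ}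
    (h : ‖w‖ < 35 / 100000) :
    PhiF N K Q =ᶠ[𝓝 w] fun x => spiral N K ((10000 : ℝ) • x) := by
  have : ∀ᶠ x : ℂ in 𝓝 w, ‖x‖ < 35 / 100000 :=
    (continuous_norm (E := ℂ)).continuousAt.eventually (gt_mem_nhds h)
  filter_upwards [this] with x hx using PhiF_small hQ0 hx.le

theorem S_nat {u : ℝ} (hu : 0 < u) : 0 ≤ Su u + u * deriv Su u := by
  have hmono : Monotone (fun u => u * Su u) := by
    have h1 : ∀ a, 0 ≤ a → a * Su a = eta √a * (1 - 1 / (1 + a)) := by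
      intro a ha
      unfold Su
      have : 1 + a ≠ 0 := by positivity
      field_simp
      ring
    have h0 : ∀ a, a ≤ 0 → a * Su a = 0 := by
      intro a ha
      unfold Su
      rw [Real.sqrt_eq_zero_of_nonpos ha, eta_zero (by norm_num)]
      simp
    have h2 : ∀ a : ℝ, 0 ≤ a → 0 ≤ 1 - 1 / (1 + a) := by
      intro a ha
      have : 1 / (1 + a) ≤ 1 := by
        rw [div_le_one (by linarith)]; linarith
      linarith
    intro a b hab
    show a * Su a ≤ b * Su b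
    rcases le_total a 0 with ha | ha
    · rw [h0 a ha]
      rcases le_total b 0 with hb | hb
      · rw [h0 b hb]
      · rw [h1 b hb]
        exact mul_nonneg (eta_nonneg _) (h2 b hb)
    · have hb := ha.trans hab
      rw [h1 a ha, h1 b hb]
      refine mul_le_mul (eta_mono (Real.sqrt_le_sqrt hab)) ?_ (h2 a ha) (eta_nonneg _)
      have : 1 / (1 + b) ≤ 1 / (1 + a) := one_div_le_one_div_of_le (by linarith) (by linarith)
      linarith
  have hd := hmono.deriv_nonneg (x := u)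
  have hS : DifferentiableAt ℝ Su u := by
    unfold Su
    refine DifferentiableAt.div ?_ (by fun_prop) (by positivity)
    exact (contDiff_eta.differentiable (by simp)).differentiableAt.comp u
      (Real.hasDerivAt_sqrt hu.ne').differentiableAt
  have h3 : HasDerivAt (fun u => u * Su u) (1 * Su u + u * deriv Su u) u :=
    (hasDerivAt_id u).mul hS.hasDerivAt
  rw [h3.deriv] at hd
  linarith

/-- the point on the strand -/
noncomputable def z0 : ℂ := ((14 / 100000 : ℝ) : ℂ) * Complex.exp ((((5 / 2 : ℝ)) : ℂ) * Complex.I)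

theorem norm_z0 : ‖z0‖ = 14 / 100000 := by
  unfold z0
  rw [norm_mul, Complex.norm_exp_ofReal_mul_I, Complex.norm_real]
  norm_num

theorem spiral_z0 (N K : ℝ) : spiral N K ((10000 : ℝ) • z0) = 0 := by
  have h1 : ‖(10000 : ℝ) • z0‖ = 14 / 10 := by rw [norm_L, norm_z0]; norm_num
  have h2 : spLam (‖(10000 : ℝ) • z0‖ - 1) = 0 := by
    rw [h1]
    exact Pool.Agent.Helper44.NCL.spLam_zero (by norm_num)
  have h3 : spE ((10000 : ℝ) • z0) = 1 := by
    unfold spE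
    rw [h1, Complex.exp_neg]
    have h4 : (((1 / ((14 : ℝ) / 10 - 1) : ℝ) : ℂ) * Complex.I) = (((5 / 2 : ℝ)) : ℂ) * Complex.I := by
      congr 2; norm_num
    rw [h4]
    have h5 : (10000 : ℝ) • z0 = (((14 / 10 : ℝ)) : ℂ) * Complex.exp ((((5 / 2 : ℝ)) : ℂ) * Complex.I) := by
      unfold z0
      rw [Complex.real_smul, ← mul_assoc, ← Complex.ofReal_mul]
      congr 2; norm_num
    rw [h5]
    have h6 : Complex.exp ((((5 / 2 : ℝ)) : ℂ) * Complex.I) ≠ 0 := Complex.exp_ne_zero _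
    have h7 : (((14 / 10 : ℝ)) : ℂ) ≠ 0 := by
      rw [Ne, Complex.ofReal_eq_zero]; norm_num
    field_simp
  unfold spiral
  split_ifs with h4 h5
  · rfl
  · rfl
  · exfalso
    apply h5
    unfold spTau
    rw [h2, h3]
    simp


/-- everything about the data, as hypotheses -/
structure Prof (N K κ : ℝ) (Q : ℝ → ℝ) : Prop where
  hN : 10 ≤ N
  hK : 0 < K
  hQ : ContDiff ℝ ∞ Q
  hQ0 : ∀ ρ ≤ 35 / 100000, Q ρ = 0
  hpos : ∀ ρ, 1 / 10000 < ρ → 0 < profR N K ρ + Q ρ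
  hκ : ∀ ρ, 4 / 10000 ≤ ρ → κ - 2 * (profR N K ρ + Q ρ) = 1 / (1 + ρ ^ 2)
  hle : ∀ ρ, 1 / 10000 < ρ → ρ ≤ 4 / 10000 → profR N K ρ + Q ρ ≤ 1 / 100
  hκ0 : 99 / 100 ≤ κ
  hnat : ∀ ρ, 3 / 10000 ≤ ρ → ρ ≤ 1 / 1000 → 0 ≤ deriv (fun r => profR N K r + Q r) ρ ∧
        0 ≤ deriv (deriv (fun r => profR N K r + Q r)) ρ
  hin : ∀ ρ, 2 / 10000 ≤ ρ → ρ ≤ 3 / 10000 →
        0 < deriv (profR N K) ρ ∧
        deriv (profR N K) ρ ≤ ρ * deriv (deriv (profR N K)) ρ ∧
        3600 * ρ ^ 2 * profR N K ρ ≤ deriv (profR N K) ρ / (2 * ρ) * (5 / 100000000) ^ 2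

namespace Prof

variable {N K κ : ℝ} {Q : ℝ → ℝ} (H : Prof N K κ Q)

include H

theorem hN0 : 0 < N := by have := H.hN; linarith

theorem contDiffAt_phi {ρ : ℝ} (h : 1 / 10000 < ρ) :
    ContDiffAt ℝ ∞ (fun r => profR N K r + Q r) ρ :=
  (contDiffAt_profR N K h).add H.hQ.contDiffAt

theorem Phi_pos {w : ℂ} (h : 175 / 1000000 ≤ ‖w‖) : 0 < PhiF N K Q w := by
  rw [PhiF_large N K Q h]
  exact H.hpos _ (by linarith)

theorem small_of_zero {w : ℂ} (h : PhiF N K Q w = 0) : ‖w‖ < 175 / 1000000 := by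
  by_contra h1
  exact (H.Phi_pos (not_lt.1 h1)).ne' h

theorem spiral_of_zero {w : ℂ} (h : PhiF N K Q w = 0) : spiral N K ((10000 : ℝ) • w) = 0 := by
  rw [← PhiF_small H.hQ0 (by have := H.small_of_zero h; linarith)]
  exact h

theorem Phi_nonneg (w : ℂ) : 0 ≤ PhiF N K Q w := by
  rcases le_or_gt (175 / 1000000) ‖w‖ with h | h
  · exact (H.Phi_pos h).le
  · rw [PhiF_small H.hQ0 (by linarith)]
    exact Pool.Agent.Helper2.NC.spiral_nonneg _ _ _

theorem kappa_pos (w : ℂ) : 0 < κ - 2 * PhiF N K Q w := by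
  have hκ := H.hκ0
  rcases le_or_gt (175 / 1000000) ‖w‖ with h | h
  · rw [PhiF_large N K Q h]
    rcases le_or_gt (4 / 10000) ‖w‖ with h1 | h1
    · rw [H.hκ _ h1]
      positivity
    · have := H.hle _ (by linarith) h1.le
      linarith
  · rw [PhiF_small H.hQ0 (by linarith)]
    have := spiral_le H.hN H.hK ((10000 : ℝ) • w)
    linarith

theorem contDiffAt_Pu {u : ℝ} (h : (1 / 10000) ^ 2 < u) : ContDiffAt ℝ ∞ (Pu N K Q) u := by
  have h1 : 1 / 10000 < √u := Real.lt_sqrt_of_sq_lt h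
  have h2 : u ≠ 0 := by
    rintro rfl
    norm_num at h
  exact (H.contDiffAt_phi h1).comp u (Real.contDiffAt_sqrt h2)

theorem deriv_Pu {u : ℝ} (h : (1 / 10000) ^ 2 < u) :
    deriv (Pu N K Q) u = deriv (fun r => profR N K r + Q r) √u / (2 * √u) ∧
    deriv (deriv (Pu N K Q)) u = (deriv (deriv (fun r => profR N K r + Q r)) √u
      - deriv (fun r => profR N K r + Q r) √u / √u) / (4 * u) :=
  deriv_two (φ := fun r => profR N K r + Q r) (a := 1 / 10000) (by norm_num)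
    (Real.lt_sqrt_of_sq_lt h) fun _ hρ => H.contDiffAt_phi hρ

theorem phi_ev {ρ : ℝ} (h : ρ < 35 / 100000) :
    (fun r => profR N K r + Q r) =ᶠ[𝓝 ρ] profR N K := by
  filter_upwards [gt_mem_nhds h] with r hr
  rw [H.hQ0 r hr.le, add_zero]

theorem deriv_in {u : ℝ} (hu : u ∈ Icc ((2 / 10000 : ℝ) ^ 2) ((3 / 10000) ^ 2)) :
    2 / 10000 ≤ √u ∧ √u ≤ 3 / 10000 ∧ √u ^ 2 = u ∧
    deriv (Pu N K Q) u = deriv (profR N K) √u / (2 * √u) ∧
    deriv (deriv (Pu N K Q)) u = (deriv (deriv (profR N K)) √u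
      - deriv (profR N K) √u / √u) / (4 * u) ∧ Pu N K Q u = profR N K √u := by
  have h1 : 2 / 10000 ≤ √u := Real.le_sqrt_of_sq_le hu.1
  have h2 : √u ≤ 3 / 10000 := (Real.sqrt_le_left (by norm_num)).2 hu.2
  have h0 : 0 ≤ u := le_trans (by positivity) hu.1
  have h3 := H.deriv_Pu (u := u) (lt_of_lt_of_le (by norm_num) hu.1)
  have h4 := H.phi_ev (ρ := √u) (by linarith)
  rw [h4.deriv.deriv_eq, h4.deriv_eq] at h3
  refine ⟨h1, h2, Real.sq_sqrt h0, h3.1, h3.2, ?_⟩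
  unfold Pu
  rw [H.hQ0 _ (by linarith), add_zero]

theorem deriv_out {u : ℝ} (h1 : (3 / 10000 : ℝ) ^ 2 ≤ u) (h2 : u ≤ 1 / 1000000) :
    0 ≤ deriv (Pu N K Q) u ∧ 0 ≤ deriv (Pu N K Q) u + 2 * u * deriv (deriv (Pu N K Q)) u := by
  have h3 : 3 / 10000 ≤ √u := Real.le_sqrt_of_sq_le h1
  have h4 : √u ≤ 1 / 1000 := (Real.sqrt_le_left (by norm_num)).2 (by linarith)
  obtain ⟨h5, h6⟩ := H.hnat _ h3 h4
  obtain ⟨h7, h8⟩ := H.deriv_Pu (u := u) (lt_of_lt_of_le (by norm_num) h1)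
  have h0 : 0 < u := lt_of_lt_of_le (by positivity) h1
  have h9 : √u ^ 2 = u := Real.sq_sqrt h0.le
  have hs : 0 < √u := by linarith
  rw [h8, h7]
  refine ⟨by positivity, ?_⟩
  have : deriv (fun r => profR N K r + Q r) √u / (2 * √u) + 2 * u *
      ((deriv (deriv (fun r => profR N K r + Q r)) √u
      - deriv (fun r => profR N K r + Q r) √u / √u) / (4 * u)) =
      deriv (deriv (fun r => profR N K r + Q r)) √u / 2 := by
    field_simp
    ring
  rw [this]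
  positivity

theorem lyap (z : ℂ) (hz : 1 / 10000 < ‖z‖) (hz0 : PhiF N K Q z = 0) :
    ∃ (V : ℂ → ℝ) (r : ℝ), 0 < r ∧ ContDiffOn ℝ 2 V (Metric.ball z r) ∧
      ∀ x ∈ Metric.ball z r, (∀ X : ℂ, X ≠ 0 → 0 < fderiv ℝ (fderiv ℝ V) x X X) ∧
        0 ≤ fderiv ℝ V x (gradC (PhiF N K Q) x) := by
  have h1 := H.small_of_zero hz0
  have h2 := H.spiral_of_zero hz0
  obtain ⟨V, r, hr, hV, h3⟩ := spiralLyapunov N K H.hN0 H.hK _
    (by rw [norm_L]; linarith) h2
  have hball : ∀ x ∈ Metric.ball z (min (r / 10000) (175 / 1000000)),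
      ‖x‖ < 35 / 100000 ∧ (10000 : ℝ) • x ∈ Metric.ball ((10000 : ℝ) • z) r := by
    intro x hx
    rw [Metric.mem_ball, lt_min_iff] at hx
    refine ⟨?_, ?_⟩
    · have h4 := hx.2
      rw [dist_eq_norm] at h4
      have h5 : ‖x‖ ≤ ‖x - z‖ + ‖z‖ := by simpa using norm_add_le (x - z) z
      linarith
    · rw [Metric.mem_ball, dist_smul₀, Real.norm_of_nonneg (by norm_num)]
      have h4 := hx.1
      rw [lt_div_iff₀ (by norm_num)] at h4
      linarith
  refine ⟨fun x => V ((10000 : ℝ) • x), min (r / 10000) (175 / 1000000),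
    by positivity, ?_, ?_⟩
  · exact hV.comp (contDiff_const_smul (10000 : ℝ)).contDiffOn fun x hx => (hball x hx).2
  · intro x hx
    obtain ⟨h4, h5⟩ := hball x hx
    obtain ⟨h6, h7⟩ := h3 _ h5
    refine ⟨?_, ?_⟩
    · intro X hX
      rw [fderiv_fderiv_scale]
      have h8 := h6 X hX
      simp only [smul_apply, smul_eq_mul]
      positivity
    · rw [gradC_congr (PhiF_ev H.hQ0 h4), fderiv_scale, gradC_scale]
      simp only [smul_apply, map_smul, smul_eq_mul]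
      positivity

theorem path (z : ℝ → ℂ) (hz : ContinuousOn z (Icc 0 1))
    (h0 : ∀ s ∈ Icc (0 : ℝ) 1, PhiF N K Q (z s) = 0) (h1 : 1 / 10000 < ‖z 0‖) :
    1 / 10000 < ‖z 1‖ := by
  have h2 := spiralPath N K H.hN0 H.hK (fun s => (10000 : ℝ) • z s)
    (hz.const_smul (10000 : ℝ) :)
    (fun s hs => H.spiral_of_zero (h0 s hs)) (by
      show 1 < ‖(10000 : ℝ) • z 0‖
      rw [norm_L]; linarith)
  have h3 : 1 < ‖(10000 : ℝ) • z 1‖ := h2
  rw [norm_L] at h3
  linarith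

end Prof

theorem contDiffAt_Su {u : ℝ} (hu : 0 < u) : ContDiffAt ℝ ∞ Su u := by
  unfold Su
  refine ContDiffAt.div ?_ (by fun_prop) (by positivity)
  exact contDiff_eta.contDiffAt.comp u (Real.contDiffAt_sqrt hu.ne')

theorem sigF_lt (w : ℂ) : sigF w * Complex.normSq w < 1 := by
  have h0 := Complex.normSq_nonneg w
  have h1 := eta_le_one ‖w‖
  unfold sigF
  rw [div_mul_eq_mul_div, div_lt_one (one_add_normSq_pos w)]
  nlinarith

end Pool.Agent.Helper68.NCT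

namespace Pool.Agent.Helper79.NC

open Set Filter

open Pool.Agent.Helper68.NCT in
/-- Module M1b: the tube data, from the profile. -/
theorem tubeDataExists (hP : ProfileExists) : TubeDataExists := by
  obtain ⟨K, hK, hcrit⟩ :=
    Pool.Agent.Helper2.NC.spiralCriterion Pool.Agent.Helper96.NCS.spiralSmooth
  obtain ⟨N₀, hN₀, hcrit⟩ := hcrit (1 / 1000) (by norm_num)
  obtain ⟨N₁, hN₁, hprof⟩ := hP K hK
  obtain ⟨N, hNN₀, hNN₁, hN10⟩ : ∃ N : ℝ, N₀ ≤ N ∧ N₁ ≤ N ∧ 10 ≤ N :=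
    ⟨max (max N₀ N₁) 10, (le_max_left _ _).trans (le_max_left _ _),
      (le_max_right _ _).trans (le_max_left _ _), le_max_right _ _⟩
  obtain ⟨Q, κ, hQ, hQ0, hpos, hκ, hle, hκ0, hnat, hin⟩ := hprof N hNN₁
  have hcrit := hcrit N hNN₀
  have H : Prof N K κ Q := ⟨hN10, hK, hQ, hQ0, hpos, hκ, hle, hκ0, hnat, hin⟩
  clear hQ hQ0 hpos hκ hle hκ0 hnat hin hprof
  refine ⟨{
    Φ := PhiF N K Q
    σ := sigF
    P := Pu N K Q
    S := Su
    κ := κ
    ρ0 := 1 / 10000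
    u0 := (18 / 100000) ^ 2
    u1 := (2 / 10000) ^ 2
    u2 := (3 / 10000) ^ 2
    u2' := (35 / 100000) ^ 2
    u3 := (5 / 10000) ^ 2
    z0 := z0
    hΦ := contDiff_PhiF H.hN0 hK H.hQ H.hQ0
    hσ := contDiff_sigF
    Φ_nonneg := H.Phi_nonneg
    κ_pos := H.kappa_pos
    σ_nonneg := fun w => div_nonneg (eta_nonneg _) (one_add_normSq_pos w).le
    σ_lt := sigF_lt
    u0_pos := by positivity
    u01 := by norm_num
    u12 := by norm_num
    u22 := by norm_num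
    u23 := by norm_num
    u3_lt := by norm_num
    σ_zero := ?_
    hP := fun u hu => (H.contDiffAt_Pu (lt_trans (by norm_num) (mem_Ioi.1 hu))).contDiffWithinAt
    hS := fun u hu => (contDiffAt_Su (lt_trans (by positivity) (mem_Ioi.1 hu))).contDiffWithinAt
    Φ_eq := ?_
    σ_eq := ?_
    P_pos := ?_
    P1_pos := ?_
    P2_nonneg := ?_
    cutoff := ?_
    crit := ?_
    crit0 := ?_
    nat1 := fun u h1 h2 => (H.deriv_out h1 h2).1
    nat2 := fun u h1 h2 => (H.deriv_out h1 h2).2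
    nat3 := fun u h1 h2 => S_nat (lt_of_lt_of_le (by positivity) h1)
    hyp1 := ?_
    hyp2 := ?_
    ρ0_pos := by norm_num
    Φ_zero := ?_
    Φ_z0 := ?_
    z0_gt := by rw [norm_z0]; norm_num
    lyap := H.lyap
    path := H.path }⟩
  · intro w hw
    have h1 := norm_lt (by norm_num) hw
    unfold sigF
    rw [eta_zero (by linarith), zero_div]
  · intro w hw
    have h1 := norm_gt hw
    rw [PhiF_large N K Q (by linarith)]
    unfold Pu
    rw [sqrt_normSq]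
  · intro w _
    unfold sigF Su
    rw [sqrt_normSq]
  · intro u hu
    have h1 : 2 / 10000 ≤ √u := Real.le_sqrt_of_sq_le hu
    exact H.hpos _ (by linarith)
  · intro u hu
    obtain ⟨h1, h2, h3, h4, h5, h6⟩ := H.deriv_in hu
    obtain ⟨h7, h8, h9⟩ := H.hin _ h1 h2
    rw [h4]
    have : 0 < √u := by linarith
    positivity
  · intro u hu
    obtain ⟨h1, h2, h3, h4, h5, h6⟩ := H.deriv_in hu
    obtain ⟨h7, h8, h9⟩ := H.hin _ h1 h2
    have hs : 0 < √u := by linarith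
    rw [h5]
    refine div_nonneg ?_ ?_
    · rw [sub_nonneg, div_le_iff₀ hs]
      linarith
    · rw [← h3]; positivity
  · intro u hu
    obtain ⟨h1, h2, h3, h4, h5, h6⟩ := H.deriv_in hu
    obtain ⟨h7, h8, h9⟩ := H.hin _ h1 h2
    rw [h4, h6]
    have h10 : ((3 / 10000 : ℝ) ^ 2 - (2 / 10000) ^ 2) = 5 / 100000000 := by norm_num
    rw [h10]
    rw [h3] at h9
    exact h9
  · intro w hw
    have h1 := norm_lt (by norm_num) hw
    refine logCriterion_congr (PhiF_ev H.hQ0 h1) (logCriterion_scale ?_)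
    exact (hcrit _ (by rw [norm_L]; linarith)).1
  · intro w hw h0
    have h1 := norm_lt (by norm_num) hw
    rw [(PhiF_ev H.hQ0 h1).fderiv_eq, fderiv_scale] at h0
    rw [PhiF_small H.hQ0 h1.le]
    refine (hcrit _ (by rw [norm_L]; linarith)).2 ?_
    exact (smul_eq_zero.1 h0).resolve_left (by norm_num)
  · intro w hw
    have h1 := norm_ge (by norm_num) hw
    rw [PhiF_large N K Q (by linarith), H.hκ _ (by linarith), Complex.normSq_eq_norm_sq]
  · intro w hw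
    have h1 := norm_ge (by norm_num) hw
    unfold sigF
    rw [eta_one h1]
  · rw [PhiF_small H.hQ0 (by rw [norm_zero]; norm_num)]
    unfold spiral
    rw [if_pos (by simp)]
  · rw [PhiF_small H.hQ0 (by rw [norm_z0]; norm_num)]
    exact spiral_z0 N K

end Pool.Agent.Helper79.NC
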