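import Mathlib
import Pool.Agent.Helper68.Flow

set_option autoImplicit false

/-!
# The poset of words with `a` ones among `N` letters, ordered by prefix counts
-/

namespace Pool.Agent.Helper68

open Finset

/-- number of elements below `p` -/
def cnt (x : Finset ℕ) (p : ℕ) : ℕ := (x.filter (fun j => j < p)).card

lemma cnt_zero (x : Finset ℕ) : cnt x 0 = 0 := by simp [cnt]

lemma cnt_succ (x : Finset ℕ) (p : ℕ) : cnt x (p + 1) = cnt x p + if p ∈ x then 1 else 0 := by
  unfold cnt
  have h : x.filter (fun j => j < p + 1) = x.filter (fun j => j < p) ∪ (if p ∈ x then {p} else ∅) := by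
    ext j
    by_cases hp : p ∈ x
    · simp only [hp, if_true, mem_filter, mem_union, mem_singleton]
      constructor
      · rintro ⟨h1, h2⟩
        rcases Nat.lt_succ_iff_lt_or_eq.mp h2 with h | h
        · exact Or.inl ⟨h1, h⟩
        · exact Or.inr h
      · rintro (⟨h1, h2⟩ | rfl)
        · exact ⟨h1, by omega⟩
        · exact ⟨hp, by omega⟩
    · simp only [hp, if_false, mem_filter, union_empty]
      constructor
      · rintro ⟨h1, h2⟩
        refine ⟨h1, ?_⟩
        rcases Nat.lt_succ_iff_lt_or_eq.mp h2 with h | h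
        · exact h
        · rw [h] at h1; exact absurd h1 hp
      · rintro ⟨h1, h2⟩
        exact ⟨h1, by omega⟩
  rw [h, card_union_of_disjoint]
  · by_cases hp : p ∈ x <;> simp [hp]
  · by_cases hp : p ∈ x
    · simp only [hp, if_true, disjoint_singleton_right, mem_filter, lt_irrefl, and_false,
        not_false_eq_true]
    · simp [hp]

lemma cnt_injective : Function.Injective cnt := by
  intro x y h
  ext p
  have h1 := cnt_succ x p
  have h2 := cnt_succ y p
  rw [h] at h1
  rw [h2] at h1
  by_cases hx : p ∈ x <;> by_cases hy : p ∈ y <;> simp [hx, hy] at h1 ⊢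

lemma cnt_of_subset {x : Finset ℕ} {N p : ℕ} (hx : x ⊆ range N) (hp : N ≤ p) : cnt x p = x.card := by
  unfold cnt
  congr 1
  apply Finset.filter_true_of_mem
  intro j hj
  have := mem_range.mp (hx hj)
  omega

/-- words of length `N` with `a` ones, given by the set of positions of the ones -/
@[ext] structure Wd (N a : ℕ) where
  /-- the positions of the ones -/
  val : Finset ℕ
  property : val ∈ (Finset.range N).powersetCard a

/-- `Wd` as a subtype -/
def Wd.equiv (N a : ℕ) : {x : Finset ℕ // x ∈ (Finset.range N).powersetCard a} ≃ Wd N a where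
  toFun x := ⟨x.1, x.2⟩
  invFun x := ⟨x.1, x.2⟩
  left_inv _ := rfl
  right_inv _ := rfl

instance (N a : ℕ) : Fintype (Wd N a) := Fintype.ofEquiv _ (Wd.equiv N a)

noncomputable instance (N a : ℕ) : DecidableEq (Wd N a) := Classical.decEq _

noncomputable instance (N a : ℕ) : PartialOrder (Wd N a) :=
  PartialOrder.lift (fun x => cnt x.1) (fun _ _ h => Wd.ext (cnt_injective h))

lemma Wd.le_iff {N a : ℕ} {x y : Wd N a} : x ≤ y ↔ ∀ p, cnt x.1 p ≤ cnt y.1 p := Iff.rfl

lemma card_Wd (N a : ℕ) : Fintype.card (Wd N a) = N.choose a := by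
  rw [← Fintype.card_congr (Wd.equiv N a), Fintype.card_coe, card_powersetCard, card_range]

lemma Wd.subset {N a : ℕ} (x : Wd N a) : x.1 ⊆ range N := (mem_powersetCard.mp x.2).1

lemma Wd.card {N a : ℕ} (x : Wd N a) : x.1.card = a := (mem_powersetCard.mp x.2).2

/-- `y` arises from `x` by exchanging the letters `0, 1` at positions `q, q + 1`. -/
def Rel (q : ℕ) (x y : Finset ℕ) : Prop := q ∉ x ∧ q + 1 ∈ x ∧ y = insert q (x.erase (q + 1))

lemma Rel_iff (q : ℕ) (z x : Finset ℕ) :
    Rel q z x ↔ q ∈ x ∧ q + 1 ∉ x ∧ z = insert (q + 1) (x.erase q) := by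
  constructor
  · rintro ⟨h1, h2, rfl⟩
    refine ⟨mem_insert_self _ _, ?_, ?_⟩
    · simp
    · rw [Finset.erase_insert (by simp [h1]), Finset.insert_erase h2]
  · rintro ⟨h1, h2, rfl⟩
    refine ⟨by simp, mem_insert_self _ _, ?_⟩
    rw [Finset.erase_insert (by simp [h2]), Finset.insert_erase h1]

lemma cnt_Rel {q : ℕ} {x y : Finset ℕ} (h : Rel q x y) (p : ℕ) :
    cnt y p = cnt x p + if p = q + 1 then 1 else 0 := by
  obtain ⟨h1, h2, rfl⟩ := h
  induction p with
  | zero => simp [cnt_zero]
  | succ p ih =>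
    rw [cnt_succ, cnt_succ, ih]
    by_cases hp : p = q
    · subst hp
      simp [h1]
    · by_cases hp' : p = q + 1
      · subst hp'
        simp [h2]
      · have e1 : ¬ p + 1 = q + 1 := by omega
        have e2 : (p ∈ insert q (x.erase (q + 1))) ↔ p ∈ x := by
          simp [hp, hp']
        simp only [e2, hp', e1, if_false, add_zero]

section words

variable {m a : ℕ}

/-- centred rank -/
def fr (m a : ℕ) (x : Wd (m + 1) a) : ℤ := 2 * (∑ p ∈ range (m + 1), (cnt x.1 p : ℤ)) - (m : ℤ) * a

/-- weight of the exchange at `q, q + 1` -/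
def gw (m q : ℕ) : ℝ := ((q : ℝ) + 1) * ((m : ℝ) - q)

open Classical in
/-- weights of covering relations -/
noncomputable def ww (m a : ℕ) (x y : Wd (m + 1) a) : ℝ :=
  ∑ q ∈ range m, if Rel q x.1 y.1 then gw m q else 0

lemma gw_nonneg {m q : ℕ} (hq : q ∈ range m) : 0 ≤ gw m q := by
  unfold gw
  have := mem_range.mp hq
  have h : (q : ℝ) ≤ m := by exact_mod_cast this.le
  have : (0 : ℝ) ≤ (m : ℝ) - q := by linarith
  positivity

lemma ww_nonneg (x y : Wd (m + 1) a) : 0 ≤ ww m a x y := by
  classical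
  unfold ww
  apply Finset.sum_nonneg
  intro q hq
  split_ifs
  · exact gw_nonneg hq
  · exact le_rfl

lemma ww_rel {x y : Wd (m + 1) a} (h : ww m a x y ≠ 0) : ∃ q ∈ range m, Rel q x.1 y.1 := by
  classical
  by_contra hcon
  push Not at hcon
  apply h
  unfold ww
  apply Finset.sum_eq_zero
  intro q hq
  rw [if_neg (hcon q hq)]

lemma ww_spec {x y : Wd (m + 1) a} (h : ww m a x y ≠ 0) : x < y ∧ fr m a y = fr m a x + 2 := by
  obtain ⟨q, hq, hR⟩ := ww_rel h
  have hc := cnt_Rel hR
  have hq' := mem_range.mp hq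
  constructor
  · rw [lt_iff_le_and_ne]
    constructor
    · rw [Wd.le_iff]
      intro p
      rw [hc p]; omega
    · intro he
      have := hc (q + 1)
      rw [he] at this
      simp at this
  · unfold fr
    have : ∑ p ∈ range (m + 1), (cnt y.1 p : ℤ) = ∑ p ∈ range (m + 1), (cnt x.1 p : ℤ) + 1 := by
      have h1 : ∀ p ∈ range (m + 1), (cnt y.1 p : ℤ) = cnt x.1 p + if p = q + 1 then 1 else 0 := by
        intro p _
        rw [hc p]; push_cast; rfl
      rw [Finset.sum_congr rfl h1, Finset.sum_add_distrib, Finset.sum_ite_eq']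
      have : q + 1 ∈ range (m + 1) := mem_range.mpr (by omega)
      simp [this]
    rw [this]; ring

lemma fr_mono {x y : Wd (m + 1) a} (h : x < y) : fr m a x + 2 ≤ fr m a y := by
  have hle : ∀ p, cnt x.1 p ≤ cnt y.1 p := h.le
  have hne : ∃ p ∈ range (m + 1), cnt x.1 p < cnt y.1 p := by
    by_contra hcon
    push Not at hcon
    apply h.ne
    apply Wd.ext
    apply cnt_injective
    funext p
    by_cases hp : p ∈ range (m + 1)
    · exact le_antisymm (hle p) (hcon p hp)
    · rw [mem_range, not_lt] at hp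
      rw [cnt_of_subset x.subset hp, cnt_of_subset y.subset hp, x.card, y.card]
  have h1 : ∑ p ∈ range (m + 1), (cnt x.1 p : ℤ) < ∑ p ∈ range (m + 1), (cnt y.1 p : ℤ) := by
    apply Finset.sum_lt_sum
    · intro p _; exact_mod_cast hle p
    · obtain ⟨p, hp, hlt⟩ := hne
      exact ⟨p, hp, by exact_mod_cast hlt⟩
  unfold fr
  linarith

open Classical in
lemma sum_out (x : Wd (m + 1) a) :
    outf (ww m a) x = ∑ q ∈ range m, if (q ∉ x.1 ∧ q + 1 ∈ x.1) then gw m q else 0 := by
  unfold outf ww
  rw [Finset.sum_comm]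
  apply Finset.sum_congr rfl
  intro q hq
  have hq' := mem_range.mp hq
  by_cases h : q ∉ x.1 ∧ q + 1 ∈ x.1
  · rw [if_pos h]
    have hmem : insert q (x.1.erase (q + 1)) ∈ (Finset.range (m + 1)).powersetCard a := by
      rw [mem_powersetCard]
      constructor
      · intro j hj
        rw [mem_insert] at hj
        rcases hj with rfl | hj
        · exact mem_range.mpr (by omega)
        · exact x.subset (mem_of_mem_erase hj)
      · rw [card_insert_of_notMem (by simp [h.1]), card_erase_of_mem h.2, x.card]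
        have : 0 < x.1.card := card_pos.mpr ⟨_, h.2⟩
        rw [x.card] at this
        omega
    rw [Finset.sum_eq_single (⟨insert q (x.1.erase (q + 1)), hmem⟩ : Wd (m + 1) a)]
    · rw [if_pos ⟨h.1, h.2, rfl⟩]
    · intro y _ hy
      rw [if_neg]
      rintro ⟨_, _, h3⟩
      exact hy (Wd.ext h3)
    · intro hh; exact absurd (mem_univ _) hh
  · rw [if_neg h]
    apply Finset.sum_eq_zero
    intro y _
    rw [if_neg]
    rintro ⟨h1, h2, _⟩
    exact h ⟨h1, h2⟩

open Classical in
lemma sum_in (x : Wd (m + 1) a) :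
    inf' (ww m a) x = ∑ q ∈ range m, if (q ∈ x.1 ∧ q + 1 ∉ x.1) then gw m q else 0 := by
  unfold inf' ww
  rw [Finset.sum_comm]
  apply Finset.sum_congr rfl
  intro q hq
  have hq' := mem_range.mp hq
  by_cases h : q ∈ x.1 ∧ q + 1 ∉ x.1
  · rw [if_pos h]
    have hmem : insert (q + 1) (x.1.erase q) ∈ (Finset.range (m + 1)).powersetCard a := by
      rw [mem_powersetCard]
      constructor
      · intro j hj
        rw [mem_insert] at hj
        rcases hj with rfl | hj
        · exact mem_range.mpr (by omega)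
        · exact x.subset (mem_of_mem_erase hj)
      · rw [card_insert_of_notMem (by simp [h.2]), card_erase_of_mem h.1, x.card]
        have : 0 < x.1.card := card_pos.mpr ⟨_, h.1⟩
        rw [x.card] at this
        omega
    rw [Finset.sum_eq_single (⟨insert (q + 1) (x.1.erase q), hmem⟩ : Wd (m + 1) a)]
    · rw [if_pos ((Rel_iff _ _ _).mpr ⟨h.1, h.2, rfl⟩)]
    · intro y _ hy
      rw [if_neg]
      intro h3
      exact hy (Wd.ext ((Rel_iff _ _ _).mp h3).2.2)
    · intro hh; exact absurd (mem_univ _) hh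
  · rw [if_neg h]
    apply Finset.sum_eq_zero
    intro y _
    rw [if_neg]
    intro h3
    have := (Rel_iff _ _ _).mp h3
    exact h ⟨this.1, this.2.1⟩

/-- the flow is balanced -/
lemma balance (x : Wd (m + 1) a) : inf' (ww m a) x - outf (ww m a) x = fr m a x := by
  classical
  rw [sum_in, sum_out, ← Finset.sum_sub_distrib]
  set u : ℕ → ℝ := fun q => if q ∈ x.1 then 1 else 0 with hu
  set c : ℕ → ℝ := fun p => (cnt x.1 p : ℝ) with hc
  have hcs : ∀ p, c (p + 1) = c p + u p := by
    intro p
    simp only [hc, hu, cnt_succ]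
    push_cast
    rfl
  have h1 : ∀ q ∈ range m, ((if (q ∈ x.1 ∧ q + 1 ∉ x.1) then gw m q else 0) -
      (if (q ∉ x.1 ∧ q + 1 ∈ x.1) then gw m q else 0)) = gw m q * (u q - u (q + 1)) := by
    intro q _
    simp only [hu]
    by_cases h : q ∈ x.1 <;> by_cases h' : q + 1 ∈ x.1 <;> simp [h, h']
  rw [Finset.sum_congr rfl h1]
  have key : ∀ k : ℕ, ∑ q ∈ range k, gw m q * (u q - u (q + 1)) =
      - ((k : ℝ) * ((m : ℝ) + 1 - k) * u k) + m * c k - 2 * k * c k + 2 * ∑ p ∈ range (k + 1), c p := by
    intro k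
    induction k with
    | zero => simp [hc, cnt_zero]
    | succ k ih =>
      rw [Finset.sum_range_succ, ih, Finset.sum_range_succ (fun p => c p) (k + 1), hcs k]
      unfold gw
      push_cast
      ring
  rw [key m]
  have hfin : c (m + 1) = a := by
    simp only [hc]
    rw [cnt_of_subset x.subset le_rfl, x.card]
  have hcm := hcs m
  rw [hfin] at hcm
  unfold fr
  push_cast
  have : (∑ p ∈ range (m + 1), c p) = ∑ p ∈ range (m + 1), (cnt x.1 p : ℝ) := rfl
  rw [← this]
  have h3 : (a : ℝ) = c m + u m := hcm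
  rw [h3]
  ring

open Classical in
/-- number of letter changes -/
noncomputable def changes (m : ℕ) (x : Finset ℕ) : Finset ℕ :=
  (range m).filter (fun q => ¬ (q ∈ x ↔ q + 1 ∈ x))

open Classical in
noncomputable def ups (m : ℕ) (x : Finset ℕ) : Finset ℕ :=
  (range m).filter (fun q => q ∉ x ∧ q + 1 ∈ x)

open Classical in
noncomputable def downs (m : ℕ) (x : Finset ℕ) : Finset ℕ :=
  (range m).filter (fun q => q ∈ x ∧ q + 1 ∉ x)

lemma changes_card (m : ℕ) (x : Finset ℕ) : (changes m x).card = (ups m x).card + (downs m x).card := by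
  classical
  have : changes m x = ups m x ∪ downs m x := by
    ext q
    simp only [changes, ups, downs, mem_filter, mem_union]
    tauto
  rw [this, card_union_of_disjoint]
  rw [Finset.disjoint_left]
  intro q h1 h2
  simp only [ups, downs, mem_filter] at h1 h2
  exact h1.2.1 h2.2.1

lemma ups_downs (m : ℕ) (x : Finset ℕ) :
    ((ups m x).card : ℤ) - (downs m x).card = (if m ∈ x then 1 else 0) - (if 0 ∈ x then 1 else 0) := by
  classical
  have h : ∀ k, (((range k).filter (fun q => q ∉ x ∧ q + 1 ∈ x)).card : ℤ) -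
      ((range k).filter (fun q => q ∈ x ∧ q + 1 ∉ x)).card =
      (if k ∈ x then 1 else 0) - (if 0 ∈ x then 1 else 0) := by
    intro k
    induction k with
    | zero => simp
    | succ k ih =>
      rw [Finset.range_add_one, filter_insert, filter_insert]
      by_cases h1 : k ∈ x <;> by_cases h2 : k + 1 ∈ x <;>
        simp only [h1, h2, not_true_eq_false, not_false_eq_true, and_true, and_false,
          if_true, if_false] at ih ⊢
      · linarith
      · rw [card_insert_of_notMem (by simp)]
        push_cast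
        linarith
      · rw [card_insert_of_notMem (by simp)]
        push_cast
        linarith
      · linarith
  exact h m

lemma ups_ge {m t : ℕ} {x : Finset ℕ} (h : 8 * t < (changes m x).card) :
    4 * t ≤ (ups m x).card ∧ 4 * t ≤ (downs m x).card := by
  have h1 := changes_card m x
  have h2 := ups_downs m x
  have h3 : ((ups m x).card : ℤ) - (downs m x).card ≤ 1 ∧ -1 ≤ ((ups m x).card : ℤ) - (downs m x).card := by
    rw [h2]
    by_cases h4 : m ∈ x <;> by_cases h5 : 0 ∈ x <;> simp [h4, h5]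
  omega

/-- the flow through a set of many positions is large -/
lemma gw_sum_ge {m t : ℕ} (ht : 2 * t ≤ m + 1) (S : Finset ℕ) (hS : S ⊆ range m) (hc : 4 * t ≤ S.card) :
    ((t : ℝ) ^ 2 * (m + 1)) ≤ ∑ q ∈ S, gw m q := by
  classical
  set S' := S.filter (fun q => t ≤ q + 1 ∧ q + 1 + t ≤ m + 1) with hS'
  have h1 : S ⊆ S' ∪ (range t ∪ Finset.Ico (m - t) m) := by
    intro q hq
    have hqm := mem_range.mp (hS hq)
    simp only [hS', mem_union, mem_filter, mem_range, mem_Ico]
    by_cases h2 : t ≤ q + 1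
    · by_cases h3 : q + 1 + t ≤ m + 1
      · exact Or.inl ⟨hq, h2, h3⟩
      · right; right; omega
    · right; left; omega
  have h2 : 2 * t ≤ S'.card := by
    have h3 := (card_le_card h1).trans (card_union_le _ _)
    have h4 : (range t ∪ Finset.Ico (m - t) m).card ≤ t + t := by
      refine (card_union_le _ _).trans ?_
      rw [card_range, Nat.card_Ico]
      omega
    omega
  have hnn : ∀ q ∈ S, 0 ≤ gw m q := fun q hq => gw_nonneg (hS hq)
  have h5 : ∑ q ∈ S', gw m q ≤ ∑ q ∈ S, gw m q :=
    Finset.sum_le_sum_of_subset_of_nonneg (filter_subset _ _) (fun q hq _ => hnn q hq)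
  have h6 : ∀ q ∈ S', (t : ℝ) * ((m : ℝ) + 1 - t) ≤ gw m q := by
    intro q hq
    rw [hS', mem_filter] at hq
    unfold gw
    have e1 : (t : ℝ) ≤ (q : ℝ) + 1 := by exact_mod_cast hq.2.1
    have e2 : (q : ℝ) + 1 + t ≤ (m : ℝ) + 1 := by exact_mod_cast hq.2.2
    nlinarith
  have h7 : (S'.card : ℝ) * ((t : ℝ) * ((m : ℝ) + 1 - t)) ≤ ∑ q ∈ S', gw m q := by
    rw [← nsmul_eq_mul, ← Finset.sum_const]
    exact Finset.sum_le_sum h6
  have h8 : (2 * (t : ℝ)) ≤ S'.card := by exact_mod_cast h2
  have h9 : 2 * (t : ℝ) ≤ (m : ℝ) + 1 := by exact_mod_cast ht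
  have h10 : (0 : ℝ) ≤ t := Nat.cast_nonneg _
  have h11 : 0 ≤ (t : ℝ) * ((m : ℝ) + 1 - t) := mul_nonneg h10 (by linarith)
  calc (t : ℝ) ^ 2 * (m + 1) ≤ 2 * (t : ℝ) * ((t : ℝ) * ((m : ℝ) + 1 - t)) := by nlinarith
    _ ≤ (S'.card : ℝ) * ((t : ℝ) * ((m : ℝ) + 1 - t)) := mul_le_mul_of_nonneg_right h8 h11
    _ ≤ ∑ q ∈ S', gw m q := h7
    _ ≤ _ := h5

lemma out_ge {t : ℕ} (ht : 2 * t ≤ m + 1) (x : Wd (m + 1) a) (h : 8 * t < (changes m x.1).card) :
    (t : ℝ) ^ 2 * (m + 1) ≤ outf (ww m a) x := by
  classical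
  rw [sum_out, ← Finset.sum_filter]
  exact gw_sum_ge ht (ups m x.1) (filter_subset _ _) (ups_ge h).1

lemma in_ge {t : ℕ} (ht : 2 * t ≤ m + 1) (x : Wd (m + 1) a) (h : 8 * t < (changes m x.1).card) :
    (t : ℝ) ^ 2 * (m + 1) ≤ inf' (ww m a) x := by
  classical
  rw [sum_in, ← Finset.sum_filter]
  exact gw_sum_ge ht (downs m x.1) (filter_subset _ _) (ups_ge h).2

lemma gw_sum_le (S : Finset ℕ) (hS : S ⊆ range m) : ∑ q ∈ S, gw m q ≤ ((m : ℝ) + 1) ^ 3 := by
  have h1 : ∑ q ∈ S, gw m q ≤ ∑ q ∈ range m, gw m q :=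
    Finset.sum_le_sum_of_subset_of_nonneg hS (fun q hq _ => gw_nonneg hq)
  have h2 : ∀ q ∈ range m, gw m q ≤ ((m : ℝ) + 1) * ((m : ℝ) + 1) := by
    intro q hq
    have : (q : ℝ) + 1 ≤ m := by exact_mod_cast mem_range.mp hq
    have h0 : (0 : ℝ) ≤ q := Nat.cast_nonneg _
    unfold gw
    nlinarith
  have h3 := Finset.sum_le_sum h2
  rw [Finset.sum_const, card_range, nsmul_eq_mul] at h3
  have h0 : (0 : ℝ) ≤ m := Nat.cast_nonneg _
  nlinarith [mul_nonneg h0 (mul_nonneg (by linarith : (0 : ℝ) ≤ (m : ℝ) + 1) (by linarith : (0 : ℝ) ≤ (m : ℝ) + 1))]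

lemma out_le (x : Wd (m + 1) a) : outf (ww m a) x ≤ ((m : ℝ) + 1) ^ 3 := by
  classical
  rw [sum_out, ← Finset.sum_filter]
  exact gw_sum_le _ (filter_subset _ _)

lemma in_le (x : Wd (m + 1) a) : inf' (ww m a) x ≤ ((m : ℝ) + 1) ^ 3 := by
  classical
  rw [sum_in, ← Finset.sum_filter]
  exact gw_sum_le _ (filter_subset _ _)

/-- words with few letter changes are rare -/
lemma card_bad_le (K : ℕ) (B : Finset (Wd (m + 1) a)) (hB : ∀ x ∈ B, (changes m x.1).card ≤ K) :
    B.card ≤ 2 * ∑ i ∈ range (K + 1), m.choose i := by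
  classical
  set T : Finset (Finset ℕ) := (range (K + 1)).biUnion (fun i => (range m).powersetCard i) with hT
  have hTcard : T.card ≤ ∑ i ∈ range (K + 1), m.choose i := by
    refine card_biUnion_le.trans ?_
    apply Finset.sum_le_sum
    intro i _
    rw [card_powersetCard, card_range]
  have h1 : B.card ≤ ((univ : Finset Bool) ×ˢ T).card := by
    apply Finset.card_le_card_of_injOn (fun x => (decide (0 ∈ x.1), changes m x.1))
    · intro x hx
      rw [mem_coe, mem_product]
      refine ⟨mem_univ _, ?_⟩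
      rw [hT, mem_biUnion]
      refine ⟨(changes m x.1).card, mem_range.mpr (Nat.lt_succ_of_le (hB x hx)), ?_⟩
      rw [mem_powersetCard]
      exact ⟨filter_subset _ _, rfl⟩
    · intro x _ y _ hxy
      simp only [Prod.mk.injEq, decide_eq_decide] at hxy
      obtain ⟨h0, hch⟩ := hxy
      apply Wd.ext
      have key : ∀ q, q ≤ m → (q ∈ x.1 ↔ q ∈ y.1) := by
        intro q
        induction q with
        | zero => intro _; exact h0
        | succ q ih =>
          intro hq
          have h2 := ih (by omega)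
          have h3 := Finset.ext_iff.mp hch q
          simp only [changes, mem_filter, mem_range] at h3
          have h4 : q < m := by omega
          simp only [h4, true_and] at h3
          tauto
      ext q
      by_cases hq : q ≤ m
      · exact key q hq
      · constructor
        · intro h; have := mem_range.mp (x.subset h); omega
        · intro h; have := mem_range.mp (y.subset h); omega
  rw [card_product, Finset.card_univ, Fintype.card_bool] at h1
  omega

end words

end Pool.Agent.Helper68
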