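import Mathlib
import Pool.Agent.Helper68.Words
import Pool.Agent.Helper68.Dilworth
import Pool.Agent.Helper68.AntichainProd

set_option autoImplicit false

/-!
# Counting antichains of words by splitting a word into two halves
-/

namespace Pool.Agent.Helper68

open Finset

open Classical in
/-- the largest size of an antichain of words -/
noncomputable def width (N a : ℕ) : ℕ :=
  ((univ : Finset (Finset (Wd N a))).filter
    (fun A : Finset (Wd N a) => IsAntichain (· ≤ ·) (A : Set (Wd N a)))).sup Finset.card

lemma le_width {N a : ℕ} (A : Finset (Wd N a)) (hA : IsAntichain (· ≤ ·) (A : Set (Wd N a))) :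
    A.card ≤ width N a := by
  classical
  unfold width
  exact Finset.le_sup (f := Finset.card) (mem_filter.mpr ⟨mem_univ _, hA⟩)

lemma exists_width (N a : ℕ) : ∃ A : Finset (Wd N a),
    IsAntichain (· ≤ ·) (A : Set (Wd N a)) ∧ A.card = width N a := by
  classical
  obtain ⟨A, hA, hA'⟩ := Finset.exists_mem_eq_sup
    ((univ : Finset (Finset (Wd N a))).filter
      (fun A : Finset (Wd N a) => IsAntichain (· ≤ ·) (A : Set (Wd N a)))) ⟨∅, by simp⟩ Finset.card
  exact ⟨A, (mem_filter.mp hA).2, hA'.symm⟩

/-- joining two words -/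
def joinSet (n : ℕ) (y z : Finset ℕ) : Finset ℕ := y ∪ z.map (addRightEmbedding n)

lemma cnt_joinSet {n : ℕ} {y z : Finset ℕ} (hy : y ⊆ range n) (p : ℕ) :
    cnt (joinSet n y z) p = cnt y p + cnt z (p - n) := by
  classical
  unfold cnt joinSet
  rw [filter_union, card_union_of_disjoint, filter_map, card_map]
  · congr 2
    ext j
    simp only [mem_filter, Function.comp, addRightEmbedding_apply]
    constructor
    · rintro ⟨h1, h2⟩; exact ⟨h1, by omega⟩
    · rintro ⟨h1, h2⟩; exact ⟨h1, by omega⟩
  · rw [Finset.disjoint_left]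
    intro j hj hj'
    have h1 := mem_range.mp (hy (mem_filter.mp hj).1)
    obtain ⟨i, _, hi⟩ := mem_map.mp (mem_filter.mp hj').1
    simp only [addRightEmbedding_apply] at hi
    omega

lemma joinSet_mem {n k : ℕ} (hk : k ≤ n) (y : Wd n k) (z : Wd n (n - k)) :
    joinSet n y.1 z.1 ∈ (Finset.range (2 * n)).powersetCard n := by
  classical
  rw [mem_powersetCard]
  constructor
  · intro j hj
    rcases mem_union.mp hj with h | h
    · have := mem_range.mp (y.subset h)
      exact mem_range.mpr (by omega)
    · obtain ⟨i, hi, hi'⟩ := mem_map.mp h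
      have := mem_range.mp (z.subset hi)
      simp only [addRightEmbedding_apply] at hi'
      exact mem_range.mpr (by omega)
  · unfold joinSet
    rw [card_union_of_disjoint, card_map, y.card, z.card]
    · omega
    · rw [Finset.disjoint_left]
      intro j hj hj'
      have h1 := mem_range.mp (y.subset hj)
      obtain ⟨i, _, hi⟩ := mem_map.mp hj'
      simp only [addRightEmbedding_apply] at hi
      omega

/-- joining two words -/
def join (n : ℕ) (k : Fin (n + 1)) (p : Wd n k.1 × Wd n (n - k.1)) : Wd (2 * n) n :=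
  ⟨joinSet n p.1.1 p.2.1, joinSet_mem (by omega) p.1 p.2⟩

lemma join_mono {n : ℕ} {k : Fin (n + 1)} {p q : Wd n k.1 × Wd n (n - k.1)} (h : p ≤ q) :
    join n k p ≤ join n k q := by
  rw [Wd.le_iff]
  intro i
  show cnt (joinSet n p.1.1 p.2.1) i ≤ cnt (joinSet n q.1.1 q.2.1) i
  rw [cnt_joinSet p.1.subset, cnt_joinSet q.1.subset]
  exact Nat.add_le_add (h.1 i) (h.2 (i - n))

lemma join_injective (n : ℕ) (k : Fin (n + 1)) : Function.Injective (join n k) := by
  intro p q h
  have h1 : ∀ i, cnt p.1.1 i + cnt p.2.1 (i - n) = cnt q.1.1 i + cnt q.2.1 (i - n) := by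
    intro i
    rw [← cnt_joinSet p.1.subset, ← cnt_joinSet q.1.subset]
    exact congrArg (fun x : Wd (2 * n) n => cnt x.1 i) h
  have h2 : p.1 = q.1 := by
    apply Wd.ext
    apply cnt_injective
    funext i
    rcases le_total i n with hi | hi
    · have := h1 i
      rw [Nat.sub_eq_zero_of_le hi, cnt_zero, cnt_zero] at this
      simpa using this
    · rw [cnt_of_subset p.1.subset hi, cnt_of_subset q.1.subset hi, p.1.card, q.1.card]
  have h3 : p.2 = q.2 := by
    apply Wd.ext
    apply cnt_injective
    funext i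
    have := h1 (i + n)
    rw [h2] at this
    simpa using this
  exact Prod.ext h2 h3

lemma join_surj (n : ℕ) (x : Wd (2 * n) n) : ∃ (k : Fin (n + 1)) (p : Wd n k.1 × Wd n (n - k.1)),
    join n k p = x := by
  classical
  have hk : (x.1.filter (fun j => j < n)).card < n + 1 := by
    have := card_le_card (filter_subset (fun j => j < n) x.1)
    rw [x.card] at this
    omega
  set k : Fin (n + 1) := ⟨(x.1.filter (fun j => j < n)).card, hk⟩ with hkdef
  have hy : x.1.filter (fun j => j < n) ∈ (range n).powersetCard k.1 := by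
    rw [mem_powersetCard]
    exact ⟨fun j hj => mem_range.mpr (mem_filter.mp hj).2, rfl⟩
  have hcard : (x.1.filter (fun j => ¬ j < n)).card = n - k.1 := by
    have := Finset.card_filter_add_card_filter_not (s := x.1) (fun j => j < n)
    rw [x.card] at this
    have h2 : k.1 = (x.1.filter (fun j => j < n)).card := rfl
    omega
  have hinj : Set.InjOn (fun j => j - n) ((x.1.filter (fun j => ¬ j < n) : Finset ℕ) : Set ℕ) := by
    intro i hi j hj hij
    have h1 := (mem_filter.mp (mem_coe.mp hi)).2
    have h2 := (mem_filter.mp (mem_coe.mp hj)).2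
    simp only at hij
    omega
  have hz : (x.1.filter (fun j => ¬ j < n)).image (fun j => j - n) ∈ (range n).powersetCard (n - k.1) := by
    rw [mem_powersetCard]
    constructor
    · intro j hj
      obtain ⟨i, hi, rfl⟩ := mem_image.mp hj
      have h1 := mem_range.mp (x.subset (mem_filter.mp hi).1)
      have h2 := (mem_filter.mp hi).2
      exact mem_range.mpr (by omega)
    · rw [card_image_of_injOn hinj, hcard]
  refine ⟨k, (⟨_, hy⟩, ⟨_, hz⟩), ?_⟩
  apply Wd.ext
  show joinSet n (x.1.filter (fun j => j < n)) ((x.1.filter (fun j => ¬ j < n)).image (fun j => j - n)) = x.1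
  ext j
  unfold joinSet
  rw [mem_union, mem_filter, mem_map]
  constructor
  · rintro (h | ⟨i, hi, rfl⟩)
    · exact h.1
    · obtain ⟨l, hl, rfl⟩ := mem_image.mp hi
      have h2 := (mem_filter.mp hl).2
      simp only [addRightEmbedding_apply]
      have : l - n + n = l := by omega
      rw [this]
      exact (mem_filter.mp hl).1
  · intro hj
    by_cases h : j < n
    · exact Or.inl ⟨hj, h⟩
    · right
      refine ⟨j - n, mem_image.mpr ⟨j, mem_filter.mpr ⟨hj, h⟩, rfl⟩, ?_⟩
      simp only [addRightEmbedding_apply]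
      omega

/-- the number of antichains of words with two halves -/
theorem antichains_Wd_le (n : ℕ) :
    Nat.card {S : Finset (Wd (2 * n) n) // IsAntichain (· ≤ ·) (S : Set (Wd (2 * n) n))} ≤
      2 ^ (∑ k ∈ range (n + 1), (n.choose k * width n (n - k) + n.choose (n - k) * width n k)) := by
  classical
  let Ψ : {S : Finset (Wd (2 * n) n) // IsAntichain (· ≤ ·) (S : Set (Wd (2 * n) n))} →
      ((k : Fin (n + 1)) → {S : Finset (Wd n k.1 × Wd n (n - k.1)) //
        IsAntichain (· ≤ ·) (S : Set (Wd n k.1 × Wd n (n - k.1)))}) := fun S k =>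
    ⟨univ.filter (fun p => join n k p ∈ S.1), by
      intro p hp q hq hpq hle
      rw [mem_coe, mem_filter] at hp hq
      exact S.2 hp.2 hq.2 (fun h => hpq (join_injective n k h)) (join_mono hle)⟩
  have hΨ : Function.Injective Ψ := by
    have main : ∀ S T : {S : Finset (Wd (2 * n) n) // IsAntichain (· ≤ ·) (S : Set (Wd (2 * n) n))},
        Ψ S = Ψ T → S.1 ⊆ T.1 := by
      intro S T h x hx
      obtain ⟨k, p, rfl⟩ := join_surj n x
      have h1 := congrArg Subtype.val (congrFun h k)
      have h2 := Finset.ext_iff.mp h1 p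
      simp only [Ψ, mem_filter, mem_univ, true_and] at h2
      exact h2.mp hx
    intro S T h
    exact Subtype.ext (Subset.antisymm (main S T h) (main T S h.symm))
  have h1 := Nat.card_le_card_of_injective Ψ hΨ
  rw [Nat.card_pi] at h1
  refine h1.trans ?_
  rw [← Fin.sum_univ_eq_sum_range (fun k => n.choose k * width n (n - k) + n.choose (n - k) * width n k),
    ← Finset.prod_pow_eq_pow_sum]
  apply Finset.prod_le_prod'
  intro k _
  obtain ⟨c, hc1, hc2⟩ := dilworth_univ (α := Wd n k.1) (width n k.1) (fun t ht => le_width t ht)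
  obtain ⟨d, hd1, hd2⟩ := dilworth_univ (α := Wd n (n - k.1)) (width n (n - k.1)) (fun t ht => le_width t ht)
  have := card_antichains_prod_le (width n k.1) (width n (n - k.1)) c d hc1 hc2 hd1 hd2
  rw [card_Wd, card_Wd] at this
  exact this

end Pool.Agent.Helper68
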