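import Mathlib
import Pool.Agent.Helper68.WordSplit

set_option autoImplicit false

/-!
# Numerical bounds for the width of the word poset
-/

namespace Pool.Agent.Helper68

open Finset

/-- upper bound for the number of words of length `N` with few letter changes -/
def badN (N : ℕ) : ℕ := 2 * ∑ i ∈ range (8 * (N / 64) + 1), N.choose i

lemma width_aux (m a N : ℕ) (hNdef : N = m + 1) (hge : 64 ≤ N) (A : Finset (Wd (m + 1) a))
    (hA : IsAntichain (· ≤ ·) (A : Set (Wd (m + 1) a))) :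
    (A.card : ℝ) ≤ 25165824 * (N.choose a : ℝ) / (N * Real.sqrt N) + 6 * badN N := by
  classical
  have hN : 1 ≤ N := by omega
  have hN0 : (0 : ℝ) < N := by exact_mod_cast hN
  have hs0 : 0 < Real.sqrt N := Real.sqrt_pos.mpr hN0
  have hsq : Real.sqrt N * Real.sqrt N = N := Real.mul_self_sqrt hN0.le
  have hC0 : (0 : ℝ) ≤ (N.choose a : ℝ) := Nat.cast_nonneg _
  have hbad0 : (0 : ℝ) ≤ (badN N : ℝ) := Nat.cast_nonneg _
  set t := N / 64 with ht
  have ht1 : 1 ≤ t := by omega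
  have ht2 : 2 * t ≤ m + 1 := by omega
  have htN : N ≤ 128 * t := by omega
  set B : Finset (Wd (m + 1) a) := univ.filter (fun x => (changes m x.1).card ≤ 8 * t) with hB
  have hBcard : (B.card : ℝ) ≤ badN N := by
    have h1 := card_bad_le (8 * t) B (fun x hx => (mem_filter.mp hx).2)
    have h2 : 2 * ∑ i ∈ range (8 * t + 1), m.choose i ≤ badN N := by
      unfold badN
      apply Nat.mul_le_mul_left
      apply Finset.sum_le_sum
      intro i _
      exact Nat.choose_le_choose i (by omega)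
    exact_mod_cast h1.trans h2
  have ht0 : (1 : ℝ) ≤ t := by exact_mod_cast ht1
  have hNr : (64 : ℝ) ≤ N := by exact_mod_cast hge
  have hs8 : 8 ≤ Real.sqrt N := by
    rw [show (8 : ℝ) = Real.sqrt 64 by
      rw [show (64 : ℝ) = 8 ^ 2 by norm_num, Real.sqrt_sq (by norm_num)]]
    exact Real.sqrt_le_sqrt hNr
  set r : ℝ := t * Real.sqrt N / 3 with hr
  have hr1 : 1 ≤ r := by
    rw [hr, le_div_iff₀ (by norm_num)]; nlinarith
  set T : ℕ := ⌊r⌋₊ with hT
  have hTr : (T : ℝ) ≤ r := Nat.floor_le (by linarith)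
  have hrT : r < T + 1 := Nat.lt_floor_add_one r
  have hT0 : (0 : ℝ) ≤ T := Nat.cast_nonneg _
  set D : ℝ := (t : ℝ) ^ 2 * (m + 1) with hD
  have hN3 : ((m : ℝ) + 1) = N := by rw [hNdef]; push_cast; ring
  have hDN : D = (t : ℝ) ^ 2 * N := by rw [hD, hN3]
  have hD0 : 0 < D := by rw [hDN]; positivity
  have hr2 : r * r = D / 9 := by
    rw [hr, hDN]
    calc (t : ℝ) * Real.sqrt N / 3 * (t * Real.sqrt N / 3) = (t : ℝ) ^ 2 * (Real.sqrt N * Real.sqrt N) / 9 := by ring
      _ = _ := by rw [hsq]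
  have hTD : (T : ℝ) ^ 2 + 2 * T ≤ D / 2 := by nlinarith
  have hmain := width_bound (w := ww m a) (f := fr m a) (fun x y h => fr_mono h) ww_nonneg
    (fun x y h => ww_spec h) balance B D (((m : ℝ) + 1) ^ 3) hD0
    (fun x hx => out_ge ht2 x (by
      rw [hB, mem_filter] at hx
      push Not at hx
      exact hx (mem_univ _)))
    (fun x hx => in_ge ht2 x (by
      rw [hB, mem_filter] at hx
      push Not at hx
      exact hx (mem_univ _)))
    out_le in_le T hTD A hA
  have hch : (m + 1).choose a = N.choose a := by rw [hNdef]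
  rw [card_Wd, hN3, hch] at hmain
  have hB0 : (0 : ℝ) ≤ B.card := Nat.cast_nonneg _
  -- the two terms
  have e1 : 2 * (2 * (T : ℝ) + 1) * B.card ≤ 2 * B.card * D := by
    have h1 : 2 * (2 * (T : ℝ) + 1) ≤ 2 * D := by nlinarith
    nlinarith
  have e2 : 2 * (N : ℝ) ^ 3 * (N.choose a) / (T + 1) ≤ (12582912 * (N.choose a : ℝ) / (N * Real.sqrt N)) * D := by
    rw [div_le_iff₀ (by positivity)]
    have h1 : (12582912 * (N.choose a : ℝ) / (N * Real.sqrt N)) * D * r ≤
        (12582912 * (N.choose a : ℝ) / (N * Real.sqrt N)) * D * (T + 1) := by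
      apply mul_le_mul_of_nonneg_left hrT.le
      positivity
    have h2 : (12582912 * (N.choose a : ℝ) / (N * Real.sqrt N)) * D * r =
        4194304 * (N.choose a : ℝ) * (t : ℝ) ^ 3 := by
      rw [hDN, hr]
      field_simp
      ring
    have h3 : (N : ℝ) ^ 3 ≤ (128 * (t : ℝ)) ^ 3 := by
      apply pow_le_pow_left₀ hN0.le
      exact_mod_cast htN
    have h4 : 2 * (N : ℝ) ^ 3 * (N.choose a) ≤ 4194304 * (N.choose a : ℝ) * (t : ℝ) ^ 3 := by
      have : 4194304 * (N.choose a : ℝ) * (t : ℝ) ^ 3 = 2 * (128 * (t : ℝ)) ^ 3 * (N.choose a) := by ring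
      rw [this]
      apply mul_le_mul_of_nonneg_right _ hC0
      linarith
    linarith
  have e3 : (2 * (N : ℝ) ^ 3 * (N.choose a) / (T + 1) + 2 * (2 * (T : ℝ) + 1) * B.card) / D ≤
      12582912 * (N.choose a : ℝ) / (N * Real.sqrt N) + 2 * B.card := by
    rw [div_le_iff₀ hD0]
    have : (12582912 * (N.choose a : ℝ) / (N * Real.sqrt N) + 2 * B.card) * D =
      (12582912 * (N.choose a : ℝ) / (N * Real.sqrt N)) * D + 2 * B.card * D := by ring
    rw [this]
    linarith
  have e4 : 25165824 * (N.choose a : ℝ) / (N * Real.sqrt N) = 2 * (12582912 * (N.choose a : ℝ) / (N * Real.sqrt N)) := by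
    ring
  rw [e4]
  linarith

/-- width bound -/
theorem width_le (N a : ℕ) (hN : 1 ≤ N) :
    (width N a : ℝ) ≤ 25165824 * (N.choose a : ℝ) / (N * Real.sqrt N) + 6 * badN N := by
  classical
  obtain ⟨A, hA, hAc⟩ := exists_width N a
  rw [← hAc]
  have hN0 : (0 : ℝ) < N := by exact_mod_cast hN
  have hs0 : 0 < Real.sqrt N := Real.sqrt_pos.mpr hN0
  have hC0 : (0 : ℝ) ≤ (N.choose a : ℝ) := Nat.cast_nonneg _
  have hbad0 : (0 : ℝ) ≤ (badN N : ℝ) := Nat.cast_nonneg _
  rcases Nat.lt_or_ge N 64 with hlt | hge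
  · have h1 : (A.card : ℝ) ≤ N.choose a := by
      have := Finset.card_le_univ A
      rw [card_Wd] at this
      exact_mod_cast this
    have h2 : (N : ℝ) * Real.sqrt N ≤ 512 := by
      have h3 : (N : ℝ) ≤ 64 := by exact_mod_cast hlt.le
      have h4 : Real.sqrt N ≤ 8 := by
        rw [show (8 : ℝ) = Real.sqrt 64 by
          rw [show (64 : ℝ) = 8 ^ 2 by norm_num, Real.sqrt_sq (by norm_num)]]
        exact Real.sqrt_le_sqrt h3
      nlinarith
    have h3 : (N.choose a : ℝ) ≤ 25165824 * (N.choose a : ℝ) / (N * Real.sqrt N) := by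
      rw [le_div_iff₀ (by positivity)]
      nlinarith
    linarith
  · obtain ⟨m, rfl⟩ : ∃ m, N = m + 1 := ⟨N - 1, by omega⟩
    exact width_aux m a (m + 1) rfl hge A hA

/-- the number of words with few letter changes is exponentially small -/
lemma badN_le (N : ℕ) : (badN N : ℝ) * 2 ^ N ≤ 2 * 4 ^ N * (1 / 10) ^ (8 * (N / 64)) := by
  set K := 8 * (N / 64) with hK
  have h1 : (∑ i ∈ range (K + 1), (N.choose i : ℝ)) ≤ 4 ^ K * (5 / 4) ^ N := by
    have h2 : ∀ i ∈ range (K + 1), (N.choose i : ℝ) ≤ 4 ^ K * ((1 / 4) ^ i * (N.choose i : ℝ)) := by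
      intro i hi
      have hiK : i ≤ K := Nat.lt_succ_iff.mp (mem_range.mp hi)
      have h3 : (1 : ℝ) ≤ 4 ^ K * (1 / 4) ^ i := by
        have : (4 : ℝ) ^ K * (1 / 4) ^ i = 4 ^ (K - i) := by
          rw [one_div, inv_pow, ← div_eq_mul_inv, pow_sub₀ _ (by norm_num) hiK, div_eq_mul_inv]
        rw [this]
        exact one_le_pow₀ (by norm_num)
      have h0 : (0 : ℝ) ≤ (N.choose i : ℝ) := Nat.cast_nonneg _
      nlinarith
    have h3 : ∑ i ∈ range (K + 1), (4 : ℝ) ^ K * ((1 / 4) ^ i * (N.choose i : ℝ)) ≤ 4 ^ K * (5 / 4) ^ N := by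
      rw [← Finset.mul_sum]
      apply mul_le_mul_of_nonneg_left _ (by positivity)
      have h4 : (5 / 4 : ℝ) ^ N = ∑ i ∈ range (N + 1), (1 / 4 : ℝ) ^ i * (N.choose i : ℝ) := by
        have := add_pow (1 / 4 : ℝ) 1 N
        rw [show (1 / 4 : ℝ) + 1 = 5 / 4 by norm_num] at this
        rw [this]
        apply Finset.sum_congr rfl
        intro i _
        simp
      rw [h4]
      have hKN : K ≤ N := by omega
      apply Finset.sum_le_sum_of_subset_of_nonneg
      · exact Finset.range_mono (by omega)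
      · intro i _ _
        positivity
    exact (Finset.sum_le_sum h2).trans h3
  have h5 : (badN N : ℝ) = 2 * ∑ i ∈ range (K + 1), (N.choose i : ℝ) := by
    unfold badN
    push_cast
    rfl
  have h6 : (5 / 8 : ℝ) ^ N ≤ (5 / 8) ^ (8 * K) := by
    apply pow_le_pow_of_le_one (by norm_num) (by norm_num)
    omega
  have h7 : (4 : ℝ) ^ K * (5 / 8) ^ (8 * K) ≤ (1 / 10) ^ K := by
    rw [pow_mul (5 / 8 : ℝ) 8 K, ← mul_pow]
    apply pow_le_pow_left₀ (by positivity)
    norm_num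
  have h8 : (5 / 4 : ℝ) ^ N * 2 ^ N = 4 ^ N * (5 / 8) ^ N := by
    rw [← mul_pow, ← mul_pow]; norm_num
  calc (badN N : ℝ) * 2 ^ N = 2 * (∑ i ∈ range (K + 1), (N.choose i : ℝ)) * 2 ^ N := by rw [h5]
    _ ≤ 2 * (4 ^ K * (5 / 4) ^ N) * 2 ^ N := by
        apply mul_le_mul_of_nonneg_right _ (by positivity)
        linarith
    _ = 2 * 4 ^ K * ((5 / 4) ^ N * 2 ^ N) := by ring
    _ = 2 * 4 ^ K * (4 ^ N * (5 / 8) ^ N) := by rw [h8]
    _ ≤ 2 * 4 ^ K * (4 ^ N * (5 / 8) ^ (8 * K)) := by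
        apply mul_le_mul_of_nonneg_left _ (by positivity)
        exact mul_le_mul_of_nonneg_left h6 (by positivity)
    _ = 2 * 4 ^ N * (4 ^ K * (5 / 8) ^ (8 * K)) := by ring
    _ ≤ 2 * 4 ^ N * (1 / 10) ^ K := mul_le_mul_of_nonneg_left h7 (by positivity)

lemma badN_le' (n : ℕ) (hn : 1 ≤ n) :
    12 * ((badN n : ℝ) * 2 ^ n) ≤ 12582912 * (n.centralBinom : ℝ) / (n * Real.sqrt n) := by
  have hn0 : (0 : ℝ) < n := by exact_mod_cast hn
  have hn1 : (1 : ℝ) ≤ n := by exact_mod_cast hn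
  have hs0 : 0 < Real.sqrt n := Real.sqrt_pos.mpr hn0
  have hsn : Real.sqrt n ≤ n := by
    rw [Real.sqrt_le_left (by linarith)]
    nlinarith
  set t := n / 64 with ht
  have h1 := badN_le n
  rw [← ht] at h1
  have h2 : (4 : ℝ) ^ n ≤ 2 * n * n.centralBinom := by
    have := Nat.four_pow_le_two_mul_self_mul_centralBinom n (by omega)
    exact_mod_cast this
  have h3 : (n : ℝ) ≤ 64 * ((t : ℝ) + 1) := by
    have : n ≤ 64 * (t + 1) := by omega
    exact_mod_cast this
  have h4 : ((t : ℝ) + 1) ≤ 2 ^ t := by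
    have : t + 1 ≤ 2 ^ t := Nat.lt_two_pow_self
    exact_mod_cast this
  have h5 : ((t : ℝ) + 1) ^ 3 * (1 / 10) ^ (8 * t) ≤ 1 := by
    have h6 : ((t : ℝ) + 1) ^ 3 ≤ (2 ^ t) ^ 3 := pow_le_pow_left₀ (by positivity) h4 3
    have h7 : ((2 : ℝ) ^ t) ^ 3 * (1 / 10) ^ (8 * t) ≤ 1 := by
      rw [pow_mul (1 / 10 : ℝ) 8 t, ← pow_mul, mul_comm t 3, pow_mul, ← mul_pow]
      apply pow_le_one₀ (by positivity)
      norm_num
    calc _ ≤ ((2 : ℝ) ^ t) ^ 3 * (1 / 10) ^ (8 * t) :=
          mul_le_mul_of_nonneg_right h6 (by positivity)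
      _ ≤ 1 := h7
  rw [le_div_iff₀ (by positivity)]
  have h8 : (n : ℝ) ^ 3 ≤ 262144 * ((t : ℝ) + 1) ^ 3 := by
    calc (n : ℝ) ^ 3 ≤ (64 * ((t : ℝ) + 1)) ^ 3 := pow_le_pow_left₀ hn0.le h3 3
      _ = _ := by ring
  have hc0 : (0 : ℝ) ≤ n.centralBinom := Nat.cast_nonneg _
  have hp0 : (0 : ℝ) ≤ (1 / 10) ^ (8 * t) := by positivity
  calc 12 * ((badN n : ℝ) * 2 ^ n) * (n * Real.sqrt n)
      ≤ 12 * (2 * 4 ^ n * (1 / 10) ^ (8 * t)) * (n * n) := by
        apply mul_le_mul
        · linarith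
        · exact mul_le_mul_of_nonneg_left hsn hn0.le
        · positivity
        · positivity
    _ ≤ 12 * (2 * (2 * n * n.centralBinom) * (1 / 10) ^ (8 * t)) * (n * n) := by
        apply mul_le_mul_of_nonneg_right _ (by positivity)
        apply mul_le_mul_of_nonneg_left _ (by norm_num)
        apply mul_le_mul_of_nonneg_right _ hp0
        linarith
    _ = 48 * (n : ℝ) ^ 3 * (1 / 10) ^ (8 * t) * n.centralBinom := by ring
    _ ≤ 48 * (262144 * ((t : ℝ) + 1) ^ 3) * (1 / 10) ^ (8 * t) * n.centralBinom := by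
        apply mul_le_mul_of_nonneg_right _ hc0
        apply mul_le_mul_of_nonneg_right _ hp0
        linarith
    _ = 12582912 * ((((t : ℝ) + 1) ^ 3) * (1 / 10) ^ (8 * t)) * n.centralBinom := by ring
    _ ≤ 12582912 * 1 * n.centralBinom := by
        apply mul_le_mul_of_nonneg_right _ hc0
        linarith
    _ = 12582912 * n.centralBinom := by ring

/-- the exponent of the antichain count -/
theorem exponent_le (n : ℕ) (hn : 1 ≤ n) :
    ((∑ k ∈ range (n + 1), (n.choose k * width n (n - k) + n.choose (n - k) * width n k) : ℕ) : ℝ) ≤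
      62914560 * (n.centralBinom : ℝ) / (n * Real.sqrt n) := by
  have hn0 : (0 : ℝ) < n := by exact_mod_cast hn
  have hs0 : 0 < Real.sqrt n := Real.sqrt_pos.mpr hn0
  set q : ℝ := n * Real.sqrt n with hq
  have hq0 : 0 < q := by positivity
  have hvdm : ∑ k ∈ range (n + 1), ((n.choose k : ℝ) * (n.choose (n - k) : ℝ)) = n.centralBinom := by
    have h := Nat.sum_range_choose_sq n
    have h2 : ∑ k ∈ range (n + 1), (n.choose k * n.choose (n - k)) = n.centralBinom := by
      rw [Nat.centralBinom_eq_two_mul_choose, ← h]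
      apply Finset.sum_congr rfl
      intro k hk
      rw [Nat.choose_symm (Nat.lt_succ_iff.mp (mem_range.mp hk))]
      ring
    exact_mod_cast h2
  have hsum1 : ∑ k ∈ range (n + 1), (n.choose k : ℝ) = 2 ^ n := by
    exact_mod_cast Nat.sum_range_choose n
  have hsum2 : ∑ k ∈ range (n + 1), (n.choose (n - k) : ℝ) = 2 ^ n := by
    rw [← hsum1]
    apply Finset.sum_congr rfl
    intro k hk
    rw [Nat.choose_symm (Nat.lt_succ_iff.mp (mem_range.mp hk))]
  push_cast
  have hterm : ∀ k ∈ range (n + 1),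
      ((n.choose k : ℝ) * (width n (n - k) : ℝ) + (n.choose (n - k) : ℝ) * (width n k : ℝ)) ≤
      (50331648 / q) * ((n.choose k : ℝ) * (n.choose (n - k) : ℝ)) +
        6 * badN n * (n.choose k : ℝ) + 6 * badN n * (n.choose (n - k) : ℝ) := by
    intro k _
    have h1 := width_le n (n - k) hn
    have h2 := width_le n k hn
    have c1 : (0 : ℝ) ≤ (n.choose k : ℝ) := Nat.cast_nonneg _
    have c2 : (0 : ℝ) ≤ (n.choose (n - k) : ℝ) := Nat.cast_nonneg _
    have h3 := mul_le_mul_of_nonneg_left h1 c1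
    have h4 := mul_le_mul_of_nonneg_left h2 c2
    rw [← hq] at h3 h4
    calc _ ≤ (n.choose k : ℝ) * (25165824 * (n.choose (n - k) : ℝ) / q + 6 * badN n) +
          (n.choose (n - k) : ℝ) * (25165824 * (n.choose k : ℝ) / q + 6 * badN n) := add_le_add h3 h4
      _ = _ := by ring
  refine (Finset.sum_le_sum hterm).trans ?_
  rw [Finset.sum_add_distrib, Finset.sum_add_distrib, ← Finset.mul_sum, ← Finset.mul_sum,
    ← Finset.mul_sum, hvdm, hsum1, hsum2]
  have h5 := badN_le' n hn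
  rw [← hq] at h5
  have h6 : (62914560 : ℝ) * (n.centralBinom : ℝ) / q =
      50331648 / q * n.centralBinom + 12582912 * (n.centralBinom : ℝ) / q := by ring
  rw [h6]
  linarith

end Pool.Agent.Helper68
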