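import Mathlib
import Pool.Agent.Helper68.WordWidth

set_option autoImplicit false

/-!
# Partitions in a square box and words; a large level
-/

namespace Pool.Agent.Helper68

open Finset

/-- Partitions `λ_1 ≥ ... ≥ λ_n ≥ 0` with `λ_1 ≤ n`, ordered by containment of diagrams (pointwise). -/
abbrev YoungBox (n : ℕ) : Type := {f : Fin n → ℕ // Antitone f ∧ ∀ i, f i ≤ n}

/-- position of the `i`-th one -/
def pos (n : ℕ) (f : YoungBox n) (i : Fin n) : ℕ := n + i.1 - f.1 i

lemma pos_strictMono (n : ℕ) (f : YoungBox n) : StrictMono (pos n f) := by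
  intro i j hij
  unfold pos
  have h1 := f.2.1 hij.le
  have h2 := f.2.2 i
  have h3 : i.1 < j.1 := hij
  omega

lemma image_pos_mem (n : ℕ) (f : YoungBox n) :
    (univ : Finset (Fin n)).image (pos n f) ∈ (Finset.range (2 * n)).powersetCard n := by
  rw [mem_powersetCard]
  constructor
  · intro j hj
    obtain ⟨i, _, rfl⟩ := mem_image.mp hj
    unfold pos
    have := i.2
    exact mem_range.mpr (by omega)
  · rw [card_image_of_injective _ (pos_strictMono n f).injective, card_univ, Fintype.card_fin]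

/-- the word of a partition -/
def toWord (n : ℕ) (f : YoungBox n) : Wd (2 * n) n := ⟨_, image_pos_mem n f⟩

lemma cnt_toWord (n : ℕ) (f : YoungBox n) (p : ℕ) :
    cnt (toWord n f).1 p = ((univ : Finset (Fin n)).filter (fun i => pos n f i < p)).card := by
  unfold cnt toWord
  simp only
  rw [Finset.filter_image, card_image_of_injective _ (pos_strictMono n f).injective]

lemma toWord_le_iff (n : ℕ) (f g : YoungBox n) : toWord n f ≤ toWord n g ↔ f ≤ g := by
  rw [Wd.le_iff]
  constructor
  · intro h i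
    have h1 := h (pos n f i + 1)
    rw [cnt_toWord, cnt_toWord] at h1
    have h2 : (Finset.Iic i).card ≤ ((univ : Finset (Fin n)).filter (fun j => pos n f j < pos n f i + 1)).card := by
      apply card_le_card
      intro j hj
      rw [mem_Iic] at hj
      rw [mem_filter]
      exact ⟨mem_univ _, Nat.lt_succ_of_le ((pos_strictMono n f).monotone hj)⟩
    rw [Fin.card_Iic] at h2
    by_contra hlt
    have hlt' : g.1 i < f.1 i := not_le.mp hlt
    have h3 : pos n f i + 1 ≤ pos n g i := by
      unfold pos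
      have := f.2.2 i
      have := g.2.2 i
      omega
    have h4 : ((univ : Finset (Fin n)).filter (fun j => pos n g j < pos n f i + 1)).card ≤ (Finset.Iio i).card := by
      apply card_le_card
      intro j hj
      rw [mem_filter] at hj
      rw [mem_Iio]
      by_contra hji
      rw [not_lt] at hji
      have := (pos_strictMono n g).monotone hji
      omega
    rw [Fin.card_Iio] at h4
    omega
  · intro h p
    rw [cnt_toWord, cnt_toWord]
    apply card_le_card
    intro i hi
    rw [mem_filter] at hi ⊢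
    refine ⟨mem_univ _, ?_⟩
    have h1 : f.1 i ≤ g.1 i := h i
    unfold pos at hi ⊢
    omega

lemma strictMono_add {n : ℕ} (e : Fin n → ℕ) (he : StrictMono e) :
    ∀ (d : ℕ) (i j : Fin n), j.1 = i.1 + d → e i + d ≤ e j := by
  intro d
  induction d with
  | zero =>
    intro i j h
    have : i = j := Fin.ext (by omega)
    rw [this]; omega
  | succ d ih =>
    intro i j h
    have hk : i.1 + d < n := by have := j.2; omega
    have h1 := ih i ⟨i.1 + d, hk⟩ rfl
    have h2 : e ⟨i.1 + d, hk⟩ < e j := he (by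
      show i.1 + d < j.1
      omega)
    omega

lemma toWord_surj (n : ℕ) (x : Wd (2 * n) n) : ∃ f, toWord n f = x := by
  set e : Fin n ↪o ℕ := x.1.orderEmbOfFin x.card with he
  have hmono : StrictMono e := e.strictMono
  have hmem : ∀ i, e i ∈ x.1 := fun i => Finset.orderEmbOfFin_mem _ _ _
  have hlt : ∀ i, e i < 2 * n := fun i => mem_range.mp (x.subset (hmem i))
  have hlow : ∀ i : Fin n, i.1 ≤ e i := by
    intro i
    have h0 : 0 < n := i.pos
    have := strictMono_add e hmono i.1 ⟨0, h0⟩ i (by simp)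
    omega
  have hup : ∀ i : Fin n, e i ≤ n + i.1 := by
    intro i
    have h0 : 0 < n := i.pos
    have h1 := strictMono_add e hmono (n - 1 - i.1) i ⟨n - 1, by omega⟩ (by
      have := i.2
      show n - 1 = _
      omega)
    have h2 := hlt ⟨n - 1, by omega⟩
    have := i.2
    omega
  refine ⟨⟨fun i => n + i.1 - e i, ?_, ?_⟩, ?_⟩
  · intro i j hij
    have h1 := strictMono_add e hmono (j.1 - i.1) i j (by
      have : i.1 ≤ j.1 := hij
      omega)
    have h2 := hup i
    have h3 := hup j
    have h4 : i.1 ≤ j.1 := hij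
    show n + j.1 - e j ≤ n + i.1 - e i
    omega
  · intro i
    have := hlow i
    show n + i.1 - e i ≤ n
    omega
  · apply Wd.ext
    show (univ : Finset (Fin n)).image (fun i : Fin n => n + i.1 - (n + i.1 - e i)) = x.1
    have h1 : (fun i : Fin n => n + i.1 - (n + i.1 - e i)) = e := by
      funext i
      have := hup i
      omega
    rw [h1]
    exact Finset.image_orderEmbOfFin_univ x.1 x.card

lemma toWord_injective (n : ℕ) : Function.Injective (toWord n) := by
  intro f g h
  exact le_antisymm ((toWord_le_iff n f g).mp h.le) ((toWord_le_iff n g f).mp h.ge)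

/-- partitions and words -/
noncomputable def youngIso (n : ℕ) : YoungBox n ≃o Wd (2 * n) n where
  toEquiv := Equiv.ofBijective (toWord n) ⟨toWord_injective n, toWord_surj n⟩
  map_rel_iff' := by
    intro f g
    exact toWord_le_iff n f g

/-- the number of antichains is invariant under order isomorphism -/
lemma card_antichains_congr {α β : Type*} [PartialOrder α] [PartialOrder β] [Fintype β] (e : α ≃o β) :
    Nat.card {S : Set α // IsAntichain (· ≤ ·) S} =
      Nat.card {S : Finset β // IsAntichain (· ≤ ·) (S : Set β)} := by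
  classical
  apply Nat.card_congr
  refine Equiv.subtypeEquiv ((Equiv.Set.congr e.toEquiv).trans Fintype.finsetEquivSet.symm) ?_
  intro S
  have h : ((((Equiv.Set.congr e.toEquiv).trans Fintype.finsetEquivSet.symm) S : Finset β) : Set β) = e '' S := by
    have : Fintype.finsetEquivSet ((((Equiv.Set.congr e.toEquiv).trans Fintype.finsetEquivSet.symm) S)) =
        (Equiv.Set.congr e.toEquiv) S := by
      simp
    exact this
  rw [h]
  exact (IsAntichain.image_iso_iff (φ := e)).symm

lemma card_antichains_ge {β : Type*} [PartialOrder β] [Fintype β] (A : Finset β)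
    (hA : IsAntichain (· ≤ ·) (A : Set β)) :
    2 ^ A.card ≤ Nat.card {S : Finset β // IsAntichain (· ≤ ·) (S : Set β)} := by
  classical
  have h1 : Nat.card {S : Finset β // S ∈ A.powerset} = 2 ^ A.card := by
    rw [Nat.card_eq_fintype_card, Fintype.card_coe, card_powerset]
  rw [← h1]
  apply Nat.card_le_card_of_injective
    (fun S : {S : Finset β // S ∈ A.powerset} =>
      (⟨S.1, hA.subset (by exact_mod_cast mem_powerset.mp S.2)⟩ :
        {S : Finset β // IsAntichain (· ≤ ·) (S : Set β)}))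
  intro S T h
  have h' := congrArg (fun z : {S : Finset β // IsAntichain (· ≤ ·) (S : Set β)} => z.1) h
  exact Subtype.ext h'

/-- there is a large level -/
lemma level_aux (m a N : ℕ) (hN : N = m + 1) : ∃ A : Finset (Wd (m + 1) a),
    IsAntichain (· ≤ ·) (A : Set (Wd (m + 1) a)) ∧
    (N.choose a : ℝ) / (16 * (N * Real.sqrt N)) ≤ A.card := by
  classical
  have hN0 : (0 : ℝ) < N := by rw [hN]; positivity
  have hN1 : (1 : ℝ) ≤ N := by rw [hN]; push_cast; linarith [(Nat.cast_nonneg m : (0 : ℝ) ≤ m)]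
  have hN3 : ((m : ℝ) + 1) = N := by rw [hN]; push_cast; ring
  set P : ℝ := (N.choose a : ℝ) with hP
  have hP0 : 0 ≤ P := Nat.cast_nonneg _
  have hcard : (Fintype.card (Wd (m + 1) a) : ℝ) = P := by rw [card_Wd, hP, hN]
  have hsm : ∑ x, (fr m a x : ℝ) ^ 2 ≤ 2 * (N : ℝ) ^ 3 * P := by
    rw [second_moment (w := ww m a) (f := fr m a) (fun x y h => (ww_spec h).2) balance]
    have h1 : ∑ x, outf (ww m a) x ≤ ∑ _x : Wd (m + 1) a, (N : ℝ) ^ 3 := by
      apply Finset.sum_le_sum
      intro x _
      have := out_le x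
      rw [hN3] at this
      exact this
    rw [Finset.sum_const, card_univ, nsmul_eq_mul, hcard] at h1
    linarith
  have hs1 : 1 ≤ Real.sqrt N := by
    rw [Real.one_le_sqrt]; exact hN1
  have hsq : Real.sqrt N * Real.sqrt N = N := Real.mul_self_sqrt hN0.le
  -- threshold
  set s : ℕ := ⌈2 * (N : ℝ) * Real.sqrt N⌉₊ with hs
  have hs_ge : 2 * (N : ℝ) * Real.sqrt N ≤ s := Nat.le_ceil _
  have hs_lt : (s : ℝ) < 2 * (N : ℝ) * Real.sqrt N + 1 := Nat.ceil_lt_add_one (by positivity)
  have hNs : 1 ≤ (N : ℝ) * Real.sqrt N := by nlinarith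
  set F : Finset (Wd (m + 1) a) := univ.filter (fun x => |fr m a x| < s) with hF
  have hFc : P / 2 ≤ F.card := by
    set G : Finset (Wd (m + 1) a) := univ.filter (fun x => ¬ |fr m a x| < s) with hG
    have h1 : (F.card : ℝ) + G.card = P := by
      rw [← hcard]
      have := Finset.card_filter_add_card_filter_not (s := (univ : Finset (Wd (m + 1) a)))
        (fun x => |fr m a x| < s)
      rw [card_univ] at this
      exact_mod_cast this
    have h2 : (G.card : ℝ) * (4 * (N : ℝ) ^ 3) ≤ 2 * (N : ℝ) ^ 3 * P := by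
      calc (G.card : ℝ) * (4 * (N : ℝ) ^ 3) = ∑ _x ∈ G, 4 * (N : ℝ) ^ 3 := by
            rw [Finset.sum_const, nsmul_eq_mul]
        _ ≤ ∑ x ∈ G, (fr m a x : ℝ) ^ 2 := by
            apply Finset.sum_le_sum
            intro x hx
            rw [hG, mem_filter, not_lt] at hx
            have h3 : (s : ℝ) ≤ |(fr m a x : ℝ)| := by
              have : ((s : ℤ) : ℝ) ≤ ((|fr m a x| : ℤ) : ℝ) := by exact_mod_cast hx.2
              simpa using this
            have h4 : (2 * (N : ℝ) * Real.sqrt N) ^ 2 ≤ |(fr m a x : ℝ)| ^ 2 :=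
              pow_le_pow_left₀ (by positivity) (hs_ge.trans h3) 2
            rw [sq_abs] at h4
            have h5 : (2 * (N : ℝ) * Real.sqrt N) ^ 2 = 4 * (N : ℝ) ^ 3 := by
              calc (2 * (N : ℝ) * Real.sqrt N) ^ 2 = 4 * (N : ℝ) ^ 2 * (Real.sqrt N * Real.sqrt N) := by ring
                _ = 4 * (N : ℝ) ^ 3 := by rw [hsq]; ring
            rw [h5] at h4
            exact h4
        _ ≤ ∑ x, (fr m a x : ℝ) ^ 2 :=
            Finset.sum_le_sum_of_subset_of_nonneg (subset_univ _) (fun x _ _ => sq_nonneg _)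
        _ ≤ _ := hsm
    have h3 : (0 : ℝ) < (N : ℝ) ^ 3 := by positivity
    have h4 : (G.card : ℝ) ≤ P / 2 := by
      have : ((N : ℝ) ^ 3) * (G.card : ℝ) ≤ ((N : ℝ) ^ 3) * (P / 2) := by linarith
      exact le_of_mul_le_mul_left this h3
    linarith
  -- pigeonhole
  set V : Finset ℤ := Finset.Ioo (-(s : ℤ)) s with hV
  have hVcard : (V.card : ℝ) ≤ 8 * (N * Real.sqrt N) := by
    rw [hV, Int.card_Ioo]
    have h1 : (((s : ℤ) - -(s : ℤ) - 1).toNat : ℝ) ≤ 2 * s := by
      have : ((s : ℤ) - -(s : ℤ) - 1).toNat ≤ 2 * s := by omega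
      exact_mod_cast this
    linarith
  have hs0 : 0 < s := by
    have : (0 : ℝ) < s := by linarith
    exact_mod_cast this
  have hVne : V.Nonempty := ⟨0, by rw [hV, mem_Ioo]; omega⟩
  obtain ⟨v, _, hv⟩ := Finset.exists_le_card_fiber_of_nsmul_le_card_of_maps_to (s := F) (t := V)
    (f := fun x => fr m a x) (b := P / (16 * (N * Real.sqrt N))) (by
      intro x hx
      rw [hF, mem_filter] at hx
      rw [hV, mem_Ioo]
      exact abs_lt.mp hx.2) hVne (by
      rw [nsmul_eq_mul]
      calc (V.card : ℝ) * (P / (16 * (N * Real.sqrt N)))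
          ≤ (8 * (N * Real.sqrt N)) * (P / (16 * (N * Real.sqrt N))) :=
            mul_le_mul_of_nonneg_right hVcard (by positivity)
        _ = P / 2 := by field_simp; ring
        _ ≤ _ := hFc)
  refine ⟨F.filter (fun x => fr m a x = v), ?_, hv⟩
  intro x hx y hy hxy hle
  rw [mem_coe, mem_filter] at hx hy
  have := fr_mono (lt_of_le_of_ne hle hxy)
  omega

lemma level (n : ℕ) (hn : 1 ≤ n) : ∃ A : Finset (Wd (2 * n) n),
    IsAntichain (· ≤ ·) (A : Set (Wd (2 * n) n)) ∧
    (1 / 64) * (n.centralBinom : ℝ) / (n * Real.sqrt n) ≤ A.card := by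
  have key : ∀ N a : ℕ, 1 ≤ N → ∃ A : Finset (Wd N a),
      IsAntichain (· ≤ ·) (A : Set (Wd N a)) ∧
      (N.choose a : ℝ) / (16 * (N * Real.sqrt N)) ≤ A.card := by
    intro N a hN
    obtain ⟨m, rfl⟩ : ∃ m, N = m + 1 := ⟨N - 1, by omega⟩
    exact level_aux m a (m + 1) rfl
  obtain ⟨A, hA, hAc⟩ := key (2 * n) n (by omega)
  refine ⟨A, hA, le_trans ?_ hAc⟩
  rw [← Nat.centralBinom_eq_two_mul_choose]
  have hn0 : (0 : ℝ) < n := by exact_mod_cast hn
  have hs0 : 0 < Real.sqrt n := Real.sqrt_pos.mpr hn0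
  have h2 : Real.sqrt ((2 * n : ℕ) : ℝ) ≤ 2 * Real.sqrt n := by
    rw [show (2 : ℝ) * Real.sqrt n = Real.sqrt (4 * n) by
      rw [Real.sqrt_mul (by norm_num), show (4 : ℝ) = 2 ^ 2 by norm_num, Real.sqrt_sq (by norm_num)]]
    apply Real.sqrt_le_sqrt
    push_cast
    linarith
  have hc0 : (0 : ℝ) ≤ n.centralBinom := Nat.cast_nonneg _
  have h3 : 16 * (((2 * n : ℕ) : ℝ) * Real.sqrt ((2 * n : ℕ) : ℝ)) ≤ 64 * (n * Real.sqrt n) := by
    have h4 : ((2 * n : ℕ) : ℝ) = 2 * n := by push_cast; ring
    have h5 : ((2 * n : ℕ) : ℝ) * Real.sqrt ((2 * n : ℕ) : ℝ) ≤ (2 * n) * (2 * Real.sqrt n) := by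
      rw [h4] at h2 ⊢
      exact mul_le_mul_of_nonneg_left h2 (by positivity)
    nlinarith
  have h6 : (0 : ℝ) < 16 * (((2 * n : ℕ) : ℝ) * Real.sqrt ((2 * n : ℕ) : ℝ)) := by
    have : (0 : ℝ) < ((2 * n : ℕ) : ℝ) := by push_cast; positivity
    have := Real.sqrt_pos.mpr this
    positivity
  calc (1 / 64) * (n.centralBinom : ℝ) / (n * Real.sqrt n) = (n.centralBinom : ℝ) / (64 * (n * Real.sqrt n)) := by
        field_simp
    _ ≤ _ := div_le_div_of_nonneg_left hc0 h6 h3

end Pool.Agent.Helper68
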